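import Mathlib

set_option autoImplicit false

namespace Pool.Agent.Helper10.Diag

open MvPowerSeries Finset

/-- Bivariate power series over the rationals. -/
abbrev S := MvPowerSeries (Fin 2) ℚ

/-- All monomials of `f` have weight at least `c`. -/
def WGe (w : (Fin 2 →₀ ℕ) →+ ℤ) (c : ℤ) (f : S) : Prop :=
  ∀ m, w m < c → coeff m f = 0

variable {w : (Fin 2 →₀ ℕ) →+ ℤ} {c d : ℤ} {f g : S}

lemma WGe.mono (h : WGe w c f) (hd : d ≤ c) : WGe w d f :=
  fun m hm => h m (lt_of_lt_of_le hm hd)

lemma WGe.add (hf : WGe w c f) (hg : WGe w c g) : WGe w c (f + g) := by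
  intro m hm
  simp [hf m hm, hg m hm]

lemma WGe.neg (hf : WGe w c f) : WGe w c (-f) := by
  intro m hm
  simp [hf m hm]

lemma WGe.sub (hf : WGe w c f) (hg : WGe w c g) : WGe w c (f - g) := by
  intro m hm
  simp [hf m hm, hg m hm]

lemma WGe.sum {ι : Type*} {s : Finset ι} {F : ι → S} (h : ∀ i ∈ s, WGe w c (F i)) :
    WGe w c (∑ i ∈ s, F i) := by
  intro m hm
  rw [map_sum]
  exact Finset.sum_eq_zero (fun i hi => h i hi m hm)

lemma WGe.mul (hf : WGe w c f) (hg : WGe w d g) : WGe w (c + d) (f * g) := by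
  intro m hm
  rw [coeff_mul]
  apply Finset.sum_eq_zero
  rintro ⟨a, b⟩ hab
  rw [HasAntidiagonal.mem_antidiagonal] at hab
  by_cases ha : w a < c
  · simp [hf a ha]
  · have hb : w b < d := by
      have : w m = w a + w b := by rw [← hab, map_add]
      omega
    simp [hg b hb]

lemma WGe.one : WGe w 0 (1 : S) := by
  intro m hm
  rw [coeff_one]
  split_ifs with h
  · subst h
    simp at hm
  · rfl

lemma WGe.pow_zero_weight (hf : WGe w 0 f) (n : ℕ) : WGe w 0 (f ^ n) := by
  induction n with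
  | zero => simpa using WGe.one
  | succ n ih =>
    rw [pow_succ]
    simpa using ih.mul hf

lemma WGe.inv (hf : WGe w 0 f) : WGe w 0 (f⁻¹) := by
  intro m
  induction m using WellFoundedLT.induction with
  | ind m ih =>
    intro hm
    rw [coeff_inv]
    have hm0 : m ≠ 0 := by
      rintro rfl
      simp at hm
    rw [if_neg hm0]
    have : (∑ x ∈ antidiagonal m, if x.2 < m then coeff x.1 f * coeff x.2 f⁻¹ else 0) = 0 := by
      apply Finset.sum_eq_zero
      rintro ⟨a, b⟩ hab
      rw [HasAntidiagonal.mem_antidiagonal] at hab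
      split_ifs with hb
      · by_cases ha : w a < 0
        · simp [hf a ha]
        · have hwb : w b < 0 := by
            have : w m = w a + w b := by rw [← hab, map_add]
            omega
          simp [ih b hb hwb]
      · rfl
    rw [this, mul_zero]

/-- Exponent `(n, n)`. -/
noncomputable def dd (n : ℕ) : Fin 2 →₀ ℕ := Finsupp.single 0 n + Finsupp.single 1 n

lemma dd_zero_apply (n : ℕ) : dd n 0 = n := by simp [dd]

lemma dd_one_apply (n : ℕ) : dd n 1 = n := by simp [dd]

lemma eq_dd {m : Fin 2 →₀ ℕ} (h : m 0 = m 1) : m = dd (m 0) := by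
  ext i
  fin_cases i
  · simp [dd]
  · simp [dd, h]

/-- Underlying function of the substitution `x ↦ x y`. -/
noncomputable def phiFun (f : PowerSeries ℚ) : S :=
  fun m => if m 0 = m 1 then PowerSeries.coeff (m 0) f else 0

lemma coeff_phiFun (f : PowerSeries ℚ) (m : Fin 2 →₀ ℕ) :
    coeff m (phiFun f) = if m 0 = m 1 then PowerSeries.coeff (m 0) f else 0 := rfl

lemma phiFun_mul (f g : PowerSeries ℚ) : phiFun (f * g) = phiFun f * phiFun g := by
  ext m
  rw [coeff_mul, coeff_phiFun]
  split_ifs with h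
  · rw [PowerSeries.coeff_mul]
    symm
    apply Finset.sum_bij_ne_zero (fun p _ _ => (p.1 0, p.2 0))
    · rintro ⟨a, b⟩ hab hne
      rw [HasAntidiagonal.mem_antidiagonal] at hab ⊢
      simp [← hab]
    · rintro ⟨a, b⟩ hab hne ⟨a', b'⟩ hab' hne' heq
      simp only [coeff_phiFun, ne_eq, mul_eq_zero, not_or, ite_eq_right_iff, Classical.not_imp,
        Prod.mk.injEq] at hne hne' heq
      have e1 := eq_dd hne.1.1
      have e2 := eq_dd hne.2.1
      have e3 := eq_dd hne'.1.1
      have e4 := eq_dd hne'.2.1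
      rw [e1, e2, e3, e4, heq.1, heq.2]
    · rintro ⟨i, j⟩ hij hne
      refine ⟨(dd i, dd j), ?_, ?_, ?_⟩
      · rw [HasAntidiagonal.mem_antidiagonal] at hij ⊢
        simp only at hij ⊢
        rw [eq_dd h, ← hij]
        ext k
        fin_cases k <;> simp [dd]
      · simpa [coeff_phiFun, dd_zero_apply, dd_one_apply] using hne
      · simp [dd_zero_apply]
    · rintro ⟨a, b⟩ hab hne
      simp only [coeff_phiFun, ne_eq, mul_eq_zero, not_or, ite_eq_right_iff,
        Classical.not_imp] at hne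
      simp [coeff_phiFun, hne.1.1, hne.2.1]
  · symm
    apply Finset.sum_eq_zero
    rintro ⟨a, b⟩ hab
    rw [HasAntidiagonal.mem_antidiagonal] at hab
    simp only [coeff_phiFun]
    split_ifs with h1 h2
    · exact absurd (by rw [← hab]; simp [h1, h2]) h
    · simp
    · simp
    · simp

/-- The substitution `x ↦ x y` as a ring homomorphism. -/
noncomputable def phi : PowerSeries ℚ →+* S where
  toFun := phiFun
  map_one' := by
    ext m
    rw [coeff_phiFun, coeff_one, PowerSeries.coeff_one]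
    by_cases h : m = 0
    · simp [h]
    · rw [if_neg h]
      split_ifs with h1 h2
      · exfalso
        apply h
        rw [eq_dd h1, h2]
        ext k
        fin_cases k <;> simp [dd]
      · rfl
      · rfl
  map_mul' := phiFun_mul
  map_zero' := by
    ext m
    rw [coeff_phiFun]
    simp
  map_add' := fun f g => by
    ext m
    rw [map_add]
    simp only [coeff_phiFun]
    split_ifs <;> simp

lemma coeff_phi (f : PowerSeries ℚ) (m : Fin 2 →₀ ℕ) :
    coeff m (phi f) = if m 0 = m 1 then PowerSeries.coeff (m 0) f else 0 := rfl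

/-- weight `j - i` of the monomial `x^i y^j`. -/
noncomputable def wt : (Fin 2 →₀ ℕ) →+ ℤ where
  toFun m := (m 1 : ℤ) - m 0
  map_zero' := by simp
  map_add' := fun a b => by
    simp only [Finsupp.coe_add, Pi.add_apply, Nat.cast_add]
    ring

lemma wt_apply (m : Fin 2 →₀ ℕ) : wt m = (m 1 : ℤ) - m 0 := rfl

lemma wt_dd (n : ℕ) : wt (dd n) = 0 := by
  simp [wt_apply, dd_zero_apply, dd_one_apply]

lemma phi_wge (f : PowerSeries ℚ) : WGe wt 0 (phi f) := by
  intro m hm
  rw [coeff_phi, if_neg]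
  rw [wt_apply] at hm
  omega

lemma phi_wge' (f : PowerSeries ℚ) : WGe (-wt) 0 (phi f) := by
  intro m hm
  rw [coeff_phi, if_neg]
  rw [AddMonoidHom.neg_apply, wt_apply] at hm
  omega

lemma X_wge (s : Fin 2) : WGe w (w (Finsupp.single s 1)) (X s : S) := by
  intro m hm
  rw [coeff_X]
  split_ifs with h
  · subst h
    exact absurd hm (lt_irrefl _)
  · rfl

lemma wt_X0 : wt (Finsupp.single 0 1) = -1 := by simp [wt_apply]

lemma wt_X1 : wt (Finsupp.single 1 1) = 1 := by simp [wt_apply]

lemma phi_X : phi PowerSeries.X = X 0 * X 1 := by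
  ext m
  rw [coeff_phi, PowerSeries.coeff_X]
  have hX : (X 0 * X 1 : S) = monomial (dd 1) 1 := by
    simp only [X, dd]
    rw [monomial_mul_monomial, one_mul]
  rw [hX, coeff_monomial]
  by_cases h : m = dd 1
  · subst h
    simp [dd_zero_apply, dd_one_apply]
  · rw [if_neg h]
    split_ifs with h1 h2
    · exfalso
      apply h
      rw [eq_dd h1, h2]
    · rfl
    · rfl

lemma phi_C (a : ℚ) : phi (PowerSeries.C a) = C a := by
  ext m
  rw [coeff_phi, PowerSeries.coeff_C, coeff_C]
  by_cases h : m = 0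
  · simp [h]
  · rw [if_neg h]
    split_ifs with h1 h2
    · exfalso
      apply h
      rw [eq_dd h1, h2]
      ext k
      fin_cases k <;> simp [dd]
    · rfl
    · rfl

/-- The substitution `(x, y) ↦ (x y, y)` on polynomials in `y` over power series in `x`. -/
noncomputable def theta : Polynomial (PowerSeries ℚ) →+* S :=
  Polynomial.eval₂RingHom phi (X 1)

lemma theta_X : theta Polynomial.X = X 1 := by simp [theta]

lemma theta_C (f : PowerSeries ℚ) : theta (Polynomial.C f) = phi f := by simp [theta]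

lemma theta_wge (q : Polynomial (PowerSeries ℚ)) : WGe wt 0 (theta q) := by
  have : theta q = ∑ e ∈ q.support, phi (q.coeff e) * (X 1 : S) ^ e := by
    simp only [theta, Polynomial.coe_eval₂RingHom, Polynomial.eval₂_eq_sum, Polynomial.sum_def]
  rw [this]
  apply WGe.sum
  intro i _
  have hX : WGe wt 0 (X 1 : S) := (X_wge 1).mono (by rw [wt_X1]; norm_num)
  simpa using (phi_wge (q.coeff i)).mul (hX.pow_zero_weight i)

/-- The substitution `(x, y) ↦ (x y, y)` on polynomials. -/
noncomputable def emb : Polynomial (Polynomial ℚ) →+* MvPolynomial (Fin 2) ℚ :=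
  Polynomial.eval₂RingHom
    (Polynomial.eval₂RingHom MvPolynomial.C (MvPolynomial.X 0 * MvPolynomial.X 1))
    (MvPolynomial.X 1)

lemma emb_X : emb Polynomial.X = MvPolynomial.X 1 := by simp [emb]

lemma emb_CX : emb (Polynomial.C Polynomial.X) = MvPolynomial.X 0 * MvPolynomial.X 1 := by
  simp [emb]

/-- Coefficientwise inclusion of polynomials into power series. -/
noncomputable def toPS : Polynomial (Polynomial ℚ) →+* Polynomial (PowerSeries ℚ) :=
  Polynomial.mapRingHom Polynomial.coeToPowerSeries.ringHom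

lemma coe_emb (q : Polynomial (Polynomial ℚ)) :
    ((emb q : MvPolynomial (Fin 2) ℚ) : S) = theta (toPS q) := by
  have key : (MvPolynomial.coeToMvPowerSeries.ringHom.comp emb :
      Polynomial (Polynomial ℚ) →+* S) = theta.comp toPS := by
    apply Polynomial.ringHom_ext'
    · apply Polynomial.ringHom_ext'
      · apply RingHom.ext_rat
      · simp [emb, toPS, theta, phi_X]
    · simp [emb, toPS, theta]
  exact congrArg (fun h => h q) key

lemma constantCoeff_emb (q : Polynomial (Polynomial ℚ)) :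
    MvPolynomial.constantCoeff (emb q) = (q.coeff 0).coeff 0 := by
  have key : (MvPolynomial.constantCoeff.comp emb : Polynomial (Polynomial ℚ) →+* ℚ) =
      (Polynomial.constantCoeff (R := ℚ)).comp (Polynomial.constantCoeff (R := Polynomial ℚ)) := by
    apply Polynomial.ringHom_ext'
    · apply Polynomial.ringHom_ext'
      · apply RingHom.ext_rat
      · simp [emb]
    · simp [emb]
  exact congrArg (fun h => h q) key

/-- A bivariate power series is rational. -/
def Rat (f : S) : Prop :=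
  ∃ P Q : MvPolynomial (Fin 2) ℚ, MvPolynomial.constantCoeff Q ≠ 0 ∧ f * (Q : S) = (P : S)

lemma Rat.of_poly (P : MvPolynomial (Fin 2) ℚ) : Rat (P : S) :=
  ⟨P, 1, by simp, by simp⟩

lemma Rat.add {f g : S} (hf : Rat f) (hg : Rat g) : Rat (f + g) := by
  obtain ⟨P, Q, h1, h2⟩ := hf
  obtain ⟨P', Q', h1', h2'⟩ := hg
  refine ⟨P * Q' + P' * Q, Q * Q', by simp [h1, h1'], ?_⟩
  push_cast
  rw [← h2, ← h2']
  ring

lemma Rat.mul {f g : S} (hf : Rat f) (hg : Rat g) : Rat (f * g) := by
  obtain ⟨P, Q, h1, h2⟩ := hf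
  obtain ⟨P', Q', h1', h2'⟩ := hg
  refine ⟨P * P', Q * Q', by simp [h1, h1'], ?_⟩
  push_cast
  rw [← h2, ← h2']
  ring

lemma coe_constantCoeff (Q : MvPolynomial (Fin 2) ℚ) :
    constantCoeff (Q : S) = MvPolynomial.constantCoeff Q := by
  rw [← coeff_zero_eq_constantCoeff_apply, MvPolynomial.coeff_coe,
    MvPolynomial.constantCoeff_eq]

/-- Furstenberg's construction in the smooth case. -/
theorem furstenberg (v g : PowerSeries ℚ) (hv : v = PowerSeries.X * g)
    (q : Polynomial (Polynomial ℚ)) (hq : (toPS q).eval v = 0)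
    (h1 : (q.coeff 1).coeff 0 ≠ 0) :
    ∃ R : S, Rat R ∧ ∀ n, coeff (dd n) R = PowerSeries.coeff n v := by
  -- the constant coefficient of `q` vanishes
  have h0 : (q.coeff 0).coeff 0 = 0 := by
    have e1 := congrArg (PowerSeries.constantCoeff (R := ℚ)) hq
    rw [map_zero, Polynomial.eval, Polynomial.hom_eval₂] at e1
    have hv0 : PowerSeries.constantCoeff v = 0 := by rw [hv]; simp
    rw [hv0, Polynomial.eval₂_at_zero] at e1
    simpa [toPS] using e1
  obtain ⟨c0, hc0⟩ := Polynomial.X_dvd_iff.mpr h0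
  set Wp : MvPolynomial (Fin 2) ℚ :=
    MvPolynomial.X 0 * emb (Polynomial.C c0) + emb q.divX with hWp
  have hW0 : MvPolynomial.constantCoeff Wp ≠ 0 := by
    rw [hWp, map_add, map_mul, MvPolynomial.constantCoeff_X, zero_mul, zero_add,
      constantCoeff_emb, Polynomial.coeff_divX]
    exact h1
  have hqW : emb q = MvPolynomial.X 1 * Wp := by
    conv_lhs => rw [← Polynomial.divX_mul_X_add q]
    rw [map_add, map_mul, emb_X, hc0, map_mul, map_mul, emb_CX, hWp]
    ring
  obtain ⟨u, hu⟩ := Polynomial.dvd_iff_isRoot.mpr hq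
  set A : S := 1 - X 0 * phi g with hA
  have hphiv : phi v = X 0 * X 1 * phi g := by rw [hv, map_mul, phi_X]
  have hW : (Wp : S) = A * theta u := by
    have e1 : (X 1 : S) * (Wp : S) = X 1 * (A * theta u) := by
      have e2 : ((emb q : MvPolynomial (Fin 2) ℚ) : S) = X 1 * (Wp : S) := by
        rw [hqW]; simp
      rw [← e2, coe_emb, hu, map_mul, map_sub, theta_X, theta_C, hphiv, hA]
      ring
    exact mul_left_cancel₀ (by
      intro h
      have := congrArg (coeff (Finsupp.single 1 1)) h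
      simp at this) e1
  have hder : toPS (Polynomial.derivative q) =
      u + (Polynomial.X - Polynomial.C v) * Polynomial.derivative u := by
    have e1 : toPS (Polynomial.derivative q) = Polynomial.derivative (toPS q) := by
      simp [toPS, Polynomial.derivative_map]
    rw [e1, hu, Polynomial.derivative_mul]
    simp
  have hA0 : constantCoeff A ≠ 0 := by simp [hA]
  have hU0 : constantCoeff (theta u) ≠ 0 := by
    intro h
    apply hW0
    rw [← coe_constantCoeff, hW, map_mul, h, mul_zero]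
  set U : S := theta u with hU
  set U' : S := theta (Polynomial.derivative u) with hU'
  have hN : ((emb (Polynomial.derivative q) : MvPolynomial (Fin 2) ℚ) : S) = U + X 1 * A * U' := by
    rw [coe_emb, hder, map_add, map_mul, map_sub, theta_X, theta_C, hphiv, hA]
    ring
  have hAi : A * A⁻¹ = 1 := MvPowerSeries.mul_inv_cancel A hA0
  have hUi : U * U⁻¹ = 1 := MvPowerSeries.mul_inv_cancel U hU0
  refine ⟨X 1 * A⁻¹ + X 1 * X 1 * (U' * U⁻¹),
    ⟨MvPolynomial.X 1 * emb (Polynomial.derivative q), Wp, hW0, ?_⟩, ?_⟩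
  · rw [MvPolynomial.coe_mul, MvPolynomial.coe_X, hN, hW]
    calc (X 1 * A⁻¹ + X 1 * X 1 * (U' * U⁻¹)) * (A * U)
        = X 1 * (A * A⁻¹) * U + X 1 * X 1 * U' * (U * U⁻¹) * A := by ring
      _ = X 1 * (U + X 1 * A * U') := by rw [hAi, hUi]; ring
  · intro n
    have hwU' : WGe wt 0 U' := theta_wge _
    have hwUi : WGe wt 0 U⁻¹ := (theta_wge u).inv
    have hX1 : WGe wt 1 (X 1 : S) := by simpa [wt_X1] using (X_wge (w := wt) 1)
    have t2 : coeff (dd n) (X 1 * X 1 * (U' * U⁻¹)) = 0 := by
      have : WGe wt (1 + 1 + (0 + 0)) (X 1 * X 1 * (U' * U⁻¹)) :=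
        (hX1.mul hX1).mul (hwU'.mul hwUi)
      exact this _ (by rw [wt_dd]; norm_num)
    have hX0n : WGe (-wt) 1 (X 0 : S) := by
      simpa [wt_X0] using (X_wge (w := -wt) 0)
    have hX1n : WGe (-wt) (-1) (X 1 : S) := by
      simpa [wt_X1] using (X_wge (w := -wt) 1)
    have hXg : WGe (-wt) 1 (X 0 * phi g) := by simpa using hX0n.mul (phi_wge' g)
    have hwA : WGe (-wt) 0 A := WGe.one.sub (hXg.mono (by norm_num))
    have hwAi : WGe (-wt) 0 A⁻¹ := hwA.inv
    have hAexp : X 1 * A⁻¹ = X 1 + phi v + X 1 * ((X 0 * phi g) * (X 0 * phi g) * A⁻¹) := by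
      have e1 : A⁻¹ = 1 + X 0 * phi g * A⁻¹ := by
        have : A⁻¹ - X 0 * phi g * A⁻¹ = 1 := by
          rw [← hAi, hA]; ring
        rw [← this]; ring
      have e2 : A⁻¹ = 1 + X 0 * phi g + (X 0 * phi g) * (X 0 * phi g) * A⁻¹ := by
        conv_lhs => rw [e1, e1]
        ring
      rw [hphiv]
      conv_lhs => rw [e2]
      ring
    have t3 : coeff (dd n) (X 1 * ((X 0 * phi g) * (X 0 * phi g) * A⁻¹)) = 0 := by
      have : WGe (-wt) (-1 + (1 + 1 + 0)) (X 1 * ((X 0 * phi g) * (X 0 * phi g) * A⁻¹)) :=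
        hX1n.mul ((hXg.mul hXg).mul hwAi)
      exact this _ (by rw [AddMonoidHom.neg_apply, wt_dd]; norm_num)
    have t4 : coeff (dd n) (X 1 : S) = 0 := hX1 _ (by rw [wt_dd]; norm_num)
    rw [map_add, t2, hAexp, map_add, map_add, t3, t4, coeff_phi, dd_zero_apply, dd_one_apply,
      if_pos rfl]
    ring

lemma X_pow_dvd_of_coe {k : ℕ} {a : Polynomial ℚ} {b : PowerSeries ℚ}
    (h : (a : PowerSeries ℚ) = PowerSeries.X ^ k * b) :
    ∃ a' : Polynomial ℚ, a = Polynomial.X ^ k * a' ∧ (a' : PowerSeries ℚ) = b := by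
  have h1 : (Polynomial.X : Polynomial ℚ) ^ k ∣ a := by
    rw [Polynomial.X_pow_dvd_iff]
    intro d hd
    have : PowerSeries.coeff d (a : PowerSeries ℚ) = 0 := by
      rw [h, PowerSeries.coeff_X_pow_mul', if_neg (by omega)]
    simpa using this
  obtain ⟨a', ha'⟩ := h1
  refine ⟨a', ha', ?_⟩
  have : (PowerSeries.X : PowerSeries ℚ) ^ k * (a' : PowerSeries ℚ) = PowerSeries.X ^ k * b := by
    rw [← h, ha']
    simp
  exact mul_left_cancel₀ (pow_ne_zero _ PowerSeries.X_ne_zero) this

lemma eval_toPS_coe (p : Polynomial (Polynomial ℚ)) (u : Polynomial ℚ) :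
    (toPS p).eval (u : PowerSeries ℚ) = ((p.eval u : Polynomial ℚ) : PowerSeries ℚ) := by
  have h1 := Polynomial.hom_eval₂ p (RingHom.id _) (Polynomial.coeToPowerSeries.ringHom (R := ℚ)) u
  rw [toPS, Polynomial.coe_mapRingHom, Polynomial.eval_map]
  rw [RingHom.comp_id] at h1
  exact h1.symm

lemma monomial_dd_pow (k : ℕ) : ((X 0 * X 1 : S)) ^ k = monomial (dd k) 1 := by
  have hX : (X 0 * X 1 : S) = monomial (dd 1) 1 := by
    simp only [X, dd]
    rw [monomial_mul_monomial, one_mul]
  rw [hX, monomial_pow, one_pow]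
  congr 2
  ext i
  fin_cases i <;> simp [dd]

lemma coeff_dd_mul (k n : ℕ) (R : S) (v : PowerSeries ℚ)
    (h : ∀ n, coeff (dd n) R = PowerSeries.coeff n v) :
    coeff (dd n) ((X 0 * X 1) ^ k * R) = PowerSeries.coeff n (PowerSeries.X ^ k * v) := by
  rw [monomial_dd_pow, coeff_monomial_mul, PowerSeries.coeff_X_pow_mul']
  have e : dd k ≤ dd n ↔ k ≤ n := by
    constructor
    · intro hle
      have := hle 0
      simpa [dd_zero_apply] using this
    · intro hle i
      fin_cases i
      · simpa [dd] using hle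
      · simpa [dd] using hle
  by_cases hk : k ≤ n
  · rw [if_pos (e.mpr hk), if_pos hk, one_mul]
    have : dd n - dd k = dd (n - k) := by
      ext i
      fin_cases i <;> simp [dd]
    rw [this, h]
  · rw [if_neg (fun hh => hk (e.mp hh)), if_neg hk]

/-- Every algebraic power series is the diagonal of a rational bivariate series. -/
theorem exists_rat_diag (F : PowerSeries ℚ)
    (hF : ∃ p : Polynomial (Polynomial ℚ), p ≠ 0 ∧ (toPS p).eval F = 0) :
    ∃ R : S, Rat R ∧ ∀ n, coeff (dd n) R = PowerSeries.coeff n F := by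
  classical
  -- choose an annihilating polynomial of minimal degree
  have hex : ∃ N : ℕ, ∃ p : Polynomial (Polynomial ℚ),
      p ≠ 0 ∧ (toPS p).eval F = 0 ∧ p.natDegree = N := by
    obtain ⟨p, hp0, hp1⟩ := hF
    exact ⟨p.natDegree, p, hp0, hp1, rfl⟩
  obtain ⟨p, hp0, hpF, hpN⟩ := Nat.find_spec hex
  have hmin : ∀ r : Polynomial (Polynomial ℚ), r.natDegree < p.natDegree → r ≠ 0 →
      (toPS r).eval F ≠ 0 := by
    intro r hr hr0 hrF
    rw [hpN] at hr
    exact Nat.find_min hex hr ⟨r, hr0, hrF, rfl⟩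
  have hpd : p.natDegree ≠ 0 := by
    intro h
    obtain ⟨c, rfl⟩ : ∃ c, p = Polynomial.C c := ⟨_, Polynomial.eq_C_of_natDegree_eq_zero h⟩
    have e1 : (c : PowerSeries ℚ) = 0 := by simpa [toPS] using hpF
    have e2 : c = 0 := by
      have : (c : PowerSeries ℚ) = ((0 : Polynomial ℚ) : PowerSeries ℚ) := by simpa using e1
      exact Polynomial.coe_injective ℚ this
    exact hp0 (by rw [e2, map_zero])
  have hder0 : Polynomial.derivative p ≠ 0 := by
    intro h
    exact hpd (Polynomial.derivative_eq_zero.mp h)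
  set D : PowerSeries ℚ := (toPS (Polynomial.derivative p)).eval F with hD
  have hDne : D ≠ 0 := hmin _ (Polynomial.natDegree_derivative_lt hpd) hder0
  obtain ⟨k, D', hDk, hD'⟩ : ∃ (k : ℕ) (D' : PowerSeries ℚ),
      D = PowerSeries.X ^ k * D' ∧ PowerSeries.constantCoeff D' ≠ 0 := by
    refine ⟨D.order.toNat, PowerSeries.divXPowOrder D, ?_, ?_⟩
    · exact (PowerSeries.X_pow_order_mul_divXPowOrder).symm
    · rw [PowerSeries.constantCoeff_divXPowOrder]
      exact PowerSeries.coeff_order hDne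
  -- truncation
  set u : Polynomial ℚ := PowerSeries.trunc (k + 1) F with hu
  set g : PowerSeries ℚ := PowerSeries.mk fun i => PowerSeries.coeff (i + (k + 1)) F with hg
  have hFu : F = g * PowerSeries.X ^ (k + 1) + (u : PowerSeries ℚ) :=
    PowerSeries.eq_shift_mul_X_pow_add_trunc (k + 1) F
  set v : PowerSeries ℚ := PowerSeries.X * g with hv
  have hFv : F = (u : PowerSeries ℚ) + PowerSeries.X ^ k * v := by
    conv_lhs => rw [hFu]
    rw [hv]; ring
  -- expansions
  obtain ⟨r1, hr1⟩ := Polynomial.sub_dvd_eval_sub F (u : PowerSeries ℚ)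
    (toPS (Polynomial.derivative p))
  have hc1' : ((Polynomial.derivative p).eval u : Polynomial ℚ) =
      (((Polynomial.derivative p).eval u : Polynomial ℚ)) := rfl
  have hp'u : (((Polynomial.derivative p).eval u : Polynomial ℚ) : PowerSeries ℚ) =
      PowerSeries.X ^ k * (D' - v * r1) := by
    rw [← eval_toPS_coe]
    have : (toPS (Polynomial.derivative p)).eval (u : PowerSeries ℚ) = D - (F - u) * r1 := by
      rw [← hr1, hD]; ring
    rw [this, hDk]
    have : F - (u : PowerSeries ℚ) = PowerSeries.X ^ k * v := by rw [hFv]; ring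
    rw [this]; ring
  obtain ⟨c1, hc1, hc1v⟩ := X_pow_dvd_of_coe hp'u
  have hc10 : c1.coeff 0 ≠ 0 := by
    have e1 : PowerSeries.constantCoeff (c1 : PowerSeries ℚ) = PowerSeries.constantCoeff D' := by
      rw [hc1v, hv]; simp
    rw [← e1] at hD'
    simpa using hD'
  obtain ⟨r2, hr2⟩ := Polynomial.binomExpansion (toPS p) (u : PowerSeries ℚ)
    (PowerSeries.X ^ k * v)
  have htoPSder : (toPS p).derivative = toPS (Polynomial.derivative p) := by
    simp [toPS, Polynomial.derivative_map]
  have hpu : ((p.eval u : Polynomial ℚ) : PowerSeries ℚ) =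
      PowerSeries.X ^ (2 * k + 1) * (-((c1 : PowerSeries ℚ) * g + r2 * v * g)) := by
    rw [← hFv, hpF, htoPSder, eval_toPS_coe, eval_toPS_coe, hc1] at hr2
    have : ((p.eval u : Polynomial ℚ) : PowerSeries ℚ) =
        -(((Polynomial.X ^ k * c1 : Polynomial ℚ) : PowerSeries ℚ) * (PowerSeries.X ^ k * v) +
          r2 * (PowerSeries.X ^ k * v) ^ 2) := by
      linear_combination -hr2
    rw [this, hv]
    rw [Polynomial.coe_mul, Polynomial.coe_pow, Polynomial.coe_X]
    ring
  obtain ⟨c0, hc0, hc0v⟩ := X_pow_dvd_of_coe hpu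
  -- the transformed polynomial
  set t : Polynomial (Polynomial ℚ) := Polynomial.taylor u p with ht
  have ht0 : t.coeff 0 = Polynomial.X ^ (2 * k + 1) * c0 := by
    rw [ht, Polynomial.taylor_coeff_zero, hc0]
  have ht1 : t.coeff 1 = Polynomial.X ^ k * c1 := by
    rw [ht, Polynomial.taylor_coeff_one, hc1]
  have htdec : t = t.divX.divX * Polynomial.X ^ 2 + Polynomial.C (t.coeff 1) * Polynomial.X +
      Polynomial.C (t.coeff 0) := by
    conv_lhs => rw [← Polynomial.divX_mul_X_add t, ← Polynomial.divX_mul_X_add t.divX]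
    rw [Polynomial.coeff_divX]
    ring
  set q : Polynomial (Polynomial ℚ) := Polynomial.C (Polynomial.X * c0) +
    Polynomial.C c1 * Polynomial.X +
    Polynomial.X ^ 2 * (t.divX.divX).comp (Polynomial.C (Polynomial.X ^ k) * Polynomial.X) with hqd
  have hq1 : (q.coeff 1).coeff 0 ≠ 0 := by
    have : q.coeff 1 = c1 := by
      rw [hqd, Polynomial.coeff_add, Polynomial.coeff_add, Polynomial.coeff_C_mul,
        Polynomial.coeff_X_one, Polynomial.coeff_C, Polynomial.coeff_X_pow_mul']
      simp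
    rw [this]; exact hc10
  have htv : (toPS t).eval (PowerSeries.X ^ k * v) = 0 := by
    have e1 : toPS t = Polynomial.taylor (u : PowerSeries ℚ) (toPS p) := by
      rw [ht, Polynomial.taylor_apply, Polynomial.taylor_apply]
      simp [toPS, Polynomial.map_comp]
    rw [e1, Polynomial.taylor_eval]
    rw [show PowerSeries.X ^ k * v + (u : PowerSeries ℚ) = F by rw [hFv]; ring]
    exact hpF
  have hqv : (toPS q).eval v = 0 := by
    have e1 : PowerSeries.X ^ (2 * k) * (toPS q).eval v = (toPS t).eval (PowerSeries.X ^ k * v) := by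
      conv_rhs => rw [htdec, ht0, ht1]
      rw [hqd]
      simp only [toPS, Polynomial.coe_mapRingHom, Polynomial.map_add, Polynomial.map_mul,
        Polynomial.map_pow, Polynomial.map_C, Polynomial.map_X, Polynomial.eval_add,
        Polynomial.eval_mul, Polynomial.eval_pow, Polynomial.eval_C, Polynomial.eval_X,
        Polynomial.map_comp, Polynomial.eval_comp, map_mul, map_pow,
        Polynomial.coeToPowerSeries.ringHom_apply, Polynomial.coe_X]
      ring
    rw [htv] at e1
    exact (mul_eq_zero.mp e1).resolve_left (pow_ne_zero _ PowerSeries.X_ne_zero)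
  obtain ⟨R1, hR1, hR1d⟩ := furstenberg v g hv q hqv hq1
  refine ⟨((emb (Polynomial.C u) : MvPolynomial (Fin 2) ℚ) : S) + (X 0 * X 1) ^ k * R1, ?_, ?_⟩
  · refine (Rat.of_poly _).add (Rat.mul ?_ hR1)
    have := Rat.of_poly ((MvPolynomial.X 0 * MvPolynomial.X 1) ^ k)
    simpa using this
  · intro n
    rw [map_add, coeff_dd_mul k n R1 v hR1d, coe_emb, hFv, map_add]
    congr 1
    simp [toPS, theta_C, coeff_phi, dd_zero_apply, dd_one_apply]

/-- Total degree. -/
noncomputable def deg (m : Fin 2 →₀ ℕ) : ℕ := m 0 + m 1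

lemma deg_add (a b : Fin 2 →₀ ℕ) : deg (a + b) = deg a + deg b := by
  simp only [deg, Finsupp.add_apply]
  ring

lemma deg_pos {b : Fin 2 →₀ ℕ} (h : b ≠ 0) : 1 ≤ deg b := by
  by_contra hc
  apply h
  unfold deg at hc
  ext i
  fin_cases i
  · simp; omega
  · simp; omega

lemma sum_snd_le (E : Finset ((Fin 2 →₀ ℕ) × (Fin 2 →₀ ℕ))) (m : Fin 2 →₀ ℕ)
    (hE : ∀ x ∈ E, x.1 + x.2 = m) (Q : MvPolynomial (Fin 2) ℚ) :
    ∑ x ∈ E, |MvPolynomial.coeff x.2 Q| ≤ ∑ b ∈ Q.support, |MvPolynomial.coeff b Q| := by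
  classical
  have h1 : ∑ x ∈ E, |MvPolynomial.coeff x.2 Q| =
      ∑ b ∈ E.image Prod.snd, |MvPolynomial.coeff b Q| := by
    rw [Finset.sum_image]
    rintro x hx y hy hxy
    have e1 := hE x hx
    have e2 := hE y hy
    rw [← hxy, ← e1] at e2
    exact Prod.ext (add_right_cancel e2).symm hxy
  have h2 : ∑ b ∈ E.image Prod.snd ∪ Q.support, |MvPolynomial.coeff b Q| =
      ∑ b ∈ Q.support, |MvPolynomial.coeff b Q| := by
    symm
    apply Finset.sum_subset Finset.subset_union_right
    intro b _ hb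
    rw [MvPolynomial.notMem_support_iff.mp hb, abs_zero]
  rw [h1, ← h2]
  exact Finset.sum_le_sum_of_subset_of_nonneg Finset.subset_union_left
    (fun _ _ _ => abs_nonneg _)

/-- Coefficients of rational series are geometrically bounded. -/
theorem rat_bound (f : S) (hf : Rat f) :
    ∃ K L : ℚ, 0 ≤ K ∧ 1 ≤ L ∧ ∀ m, |coeff m f| ≤ K * L ^ deg m := by
  classical
  obtain ⟨P, Q, hQ0, hfQ⟩ := hf
  have hq0 : MvPolynomial.coeff 0 Q ≠ 0 := by
    rwa [← MvPolynomial.constantCoeff_eq]
  obtain ⟨q0, hq0d⟩ : ∃ q0 : ℚ, q0 = |MvPolynomial.coeff 0 Q| := ⟨_, rfl⟩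
  have hq0pos : 0 < q0 := hq0d ▸ abs_pos.mpr hq0
  obtain ⟨K, hK⟩ : ∃ K : ℚ, K = (∑ m ∈ P.support, |MvPolynomial.coeff m P|) / q0 := ⟨_, rfl⟩
  obtain ⟨B, hB⟩ : ∃ B : ℚ, B = (∑ m ∈ Q.support, |MvPolynomial.coeff m Q|) / q0 := ⟨_, rfl⟩
  have hK0 : 0 ≤ K := hK ▸ div_nonneg (Finset.sum_nonneg fun _ _ => abs_nonneg _) hq0pos.le
  have hB0 : 0 ≤ B := hB ▸ div_nonneg (Finset.sum_nonneg fun _ _ => abs_nonneg _) hq0pos.le
  have hL1 : (1 : ℚ) ≤ 1 + B := by linarith
  refine ⟨K, 1 + B, hK0, hL1, ?_⟩
  have hPm : ∀ m, |MvPolynomial.coeff m P| ≤ K * q0 := by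
    intro m
    rw [hK, div_mul_cancel₀ _ hq0pos.ne']
    by_cases hm : m ∈ P.support
    · exact Finset.single_le_sum (f := fun m => |MvPolynomial.coeff m P|)
        (fun _ _ => abs_nonneg _) hm
    · rw [MvPolynomial.notMem_support_iff.mp hm, abs_zero]
      exact Finset.sum_nonneg fun _ _ => abs_nonneg _
  intro m
  induction m using WellFoundedLT.induction with
  | ind m ih =>
    have hcoef := congrArg (coeff m) hfQ
    rw [coeff_mul, MvPolynomial.coeff_coe] at hcoef
    have hmem : ((m, 0) : (Fin 2 →₀ ℕ) × (Fin 2 →₀ ℕ)) ∈ antidiagonal m := by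
      rw [HasAntidiagonal.mem_antidiagonal]; simp
    rw [← Finset.add_sum_erase _ _ hmem, MvPolynomial.coeff_coe] at hcoef
    simp only at hcoef
    set E := (antidiagonal m).erase ((m, 0) : (Fin 2 →₀ ℕ) × (Fin 2 →₀ ℕ)) with hE
    have hEmem : ∀ x ∈ E, x.1 + x.2 = m ∧ x.2 ≠ 0 := by
      rintro ⟨a, b⟩ hx
      rw [hE, Finset.mem_erase, HasAntidiagonal.mem_antidiagonal] at hx
      refine ⟨hx.2, ?_⟩
      rintro hb
      apply hx.1
      have := hx.2
      simp only at this hb
      subst hb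
      simpa using this
    have hsum : |∑ x ∈ E, coeff x.1 f * coeff x.2 (Q : S)| ≤
        K * (1 + B) ^ (deg m - 1) * (B * q0) := by
      calc |∑ x ∈ E, coeff x.1 f * coeff x.2 (Q : S)|
          ≤ ∑ x ∈ E, |coeff x.1 f * coeff x.2 (Q : S)| := Finset.abs_sum_le_sum_abs _ _
        _ ≤ ∑ x ∈ E, K * (1 + B) ^ (deg m - 1) * |MvPolynomial.coeff x.2 Q| := by
            apply Finset.sum_le_sum
            rintro ⟨a, b⟩ hx
            obtain ⟨hab, hb⟩ := hEmem _ hx
            simp only at hab hb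
            rw [abs_mul, MvPolynomial.coeff_coe]
            apply mul_le_mul_of_nonneg_right _ (abs_nonneg _)
            have hlt : a < m := by
              rw [← hab]
              exact lt_add_of_pos_right a (pos_iff_ne_zero.mpr hb)
            refine (ih a hlt).trans ?_
            apply mul_le_mul_of_nonneg_left _ hK0
            apply pow_le_pow_right₀ hL1
            have := deg_pos hb
            have h2 : deg m = deg a + deg b := by rw [← hab, deg_add]
            omega
        _ = K * (1 + B) ^ (deg m - 1) * ∑ x ∈ E, |MvPolynomial.coeff x.2 Q| := by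
            rw [Finset.mul_sum]
        _ ≤ K * (1 + B) ^ (deg m - 1) * (B * q0) := by
            have hpw : 0 ≤ (1 + B) ^ (deg m - 1) := pow_nonneg (by linarith) _
            have hs : ∑ x ∈ E, |MvPolynomial.coeff x.2 Q| ≤ B * q0 := by
              rw [hB, div_mul_cancel₀ _ hq0pos.ne']
              exact sum_snd_le E m (fun x hx => (hEmem x hx).1) Q
            exact mul_le_mul_of_nonneg_left hs (mul_nonneg hK0 hpw)
    have hmain : q0 * |coeff m f| ≤ K * q0 + |∑ x ∈ E, coeff x.1 f * coeff x.2 (Q : S)| := by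
      have e1 : coeff m f * MvPolynomial.coeff 0 Q =
          MvPolynomial.coeff m P - ∑ x ∈ E, coeff x.1 f * coeff x.2 (Q : S) := by
        linarith
      calc q0 * |coeff m f| = |coeff m f * MvPolynomial.coeff 0 Q| := by
            rw [abs_mul, hq0d, mul_comm]
        _ = |MvPolynomial.coeff m P - ∑ x ∈ E, coeff x.1 f * coeff x.2 (Q : S)| := by rw [e1]
        _ ≤ |MvPolynomial.coeff m P| + |∑ x ∈ E, coeff x.1 f * coeff x.2 (Q : S)| :=
            abs_sub _ _
        _ ≤ _ := by linarith [hPm m]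
    by_cases hm0 : m = 0
    · subst hm0
      have hEe : E = ∅ := by
        rw [Finset.eq_empty_iff_forall_notMem]
        rintro ⟨a, b⟩ hx
        obtain ⟨h1, h2⟩ := hEmem _ hx
        simp only at h1 h2
        apply h2
        have := (add_eq_zero.mp h1).2
        exact this
      rw [hEe, Finset.sum_empty, abs_zero, add_zero] at hmain
      have : |coeff 0 f| ≤ K := by
        have h3 : q0 * |coeff 0 f| ≤ q0 * K := by linarith
        exact le_of_mul_le_mul_left h3 hq0pos
      simpa [deg] using this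
    · have hd := deg_pos hm0
      obtain ⟨e, he⟩ : ∃ e, deg m = e + 1 := ⟨deg m - 1, by omega⟩
      rw [he] at hsum ⊢
      rw [Nat.add_sub_cancel] at hsum
      have hpow : (1 : ℚ) ≤ (1 + B) ^ e := one_le_pow₀ hL1
      have h4 : q0 * |coeff m f| ≤ q0 * (K * (1 + B) ^ (e + 1)) := by
        have h5 : K * q0 ≤ K * q0 * (1 + B) ^ e := by
          have : 0 ≤ K * q0 := mul_nonneg hK0 hq0pos.le
          nlinarith
        calc q0 * |coeff m f| ≤ K * q0 + K * (1 + B) ^ e * (B * q0) := by linarith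
          _ ≤ K * q0 * (1 + B) ^ e + K * (1 + B) ^ e * (B * q0) := by linarith
          _ = q0 * (K * (1 + B) ^ (e + 1)) := by ring
      exact le_of_mul_le_mul_left h4 hq0pos

/-- The series with coefficient `L^(i+j)` off the diagonal and `0` on it. -/
noncomputable def offDiag (L : ℚ) : S := fun m => if m 0 = m 1 then 0 else L ^ deg m

lemma coeff_offDiag (L : ℚ) (m : Fin 2 →₀ ℕ) :
    coeff m (offDiag L) = if m 0 = m 1 then 0 else L ^ deg m := rfl

/-- The series with all coefficients `L^(i+j)`. -/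
noncomputable def full (L : ℚ) : S := fun m => L ^ deg m

lemma coeff_full (L : ℚ) (m : Fin 2 →₀ ℕ) : coeff m (full L) = L ^ deg m := rfl

lemma X_mul_coeff (s : Fin 2) (f : S) (m : Fin 2 →₀ ℕ) :
    coeff m (X s * f) = if m s = 0 then 0 else coeff (m - Finsupp.single s 1) f := by
  rw [X, coeff_monomial_mul]
  by_cases h : m s = 0
  · rw [if_pos h, if_neg]
    intro hle
    have := hle s
    simp [h] at this
  · rw [if_neg h, if_pos, one_mul]
    rw [Finsupp.single_le_iff]
    omega

/-- The series `∑ L^i x^i`. -/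
noncomputable def row (L : ℚ) : S := fun m => if m 1 = 0 then L ^ m 0 else 0

lemma coeff_row (L : ℚ) (m : Fin 2 →₀ ℕ) :
    coeff m (row L) = if m 1 = 0 then L ^ m 0 else 0 := rfl

lemma full_eq (L : ℚ) : (1 - C L * X 0) * ((1 - C L * X 1) * full L) = 1 := by
  have h1 : (1 - C L * X 1) * full L = row L := by
    ext m
    rw [sub_mul, one_mul, map_sub, mul_assoc, coeff_C_mul, X_mul_coeff, coeff_full, coeff_full,
      coeff_row]
    split_ifs with h
    · simp [deg, h]
    · obtain ⟨j, hj⟩ : ∃ j, m 1 = j + 1 := ⟨m 1 - 1, by omega⟩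
      simp only [deg, Finsupp.tsub_apply, Finsupp.single_apply]
      rw [hj]
      simp
      ring
  rw [h1]
  ext m
  rw [sub_mul, one_mul, map_sub, mul_assoc, coeff_C_mul, X_mul_coeff, coeff_row, coeff_row,
    coeff_one]
  by_cases hm : m = 0
  · subst hm
    simp
  · rw [if_neg hm]
    by_cases h0 : m 0 = 0
    · have h1 : m 1 ≠ 0 := by
        intro h1
        apply hm
        ext i
        fin_cases i
        · simpa using h0
        · simpa using h1
      simp [h0, h1]
    · obtain ⟨j, hj⟩ : ∃ j, m 0 = j + 1 := ⟨m 0 - 1, by omega⟩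
      simp only [Finsupp.tsub_apply, Finsupp.single_apply]
      rw [hj]
      by_cases h1 : m 1 = 0
      · simp [h1]
        ring
      · simp [h1]

lemma offDiag_rat (L : ℚ) : Rat (offDiag L) := by
  -- the diagonal part
  set G : PowerSeries ℚ := PowerSeries.mk fun n => (L ^ 2) ^ n with hG
  have hGm : (1 - PowerSeries.C (L ^ 2) * PowerSeries.X) * G = 1 := by
    ext n
    rw [sub_mul, one_mul, map_sub, mul_assoc, PowerSeries.coeff_C_mul]
    cases n with
    | zero => simp [hG]
    | succ n =>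
      rw [PowerSeries.coeff_succ_X_mul, hG, PowerSeries.coeff_mk, PowerSeries.coeff_mk,
        PowerSeries.coeff_one]
      simp
      ring
  have hphiG : (1 - C (L ^ 2) * (X 0 * X 1)) * phi G = 1 := by
    have := congrArg phi hGm
    rwa [map_mul, map_sub, map_mul, map_one, phi_C, phi_X] at this
  have hoff : offDiag L = full L - phi G := by
    ext m
    rw [map_sub, coeff_offDiag, coeff_full, coeff_phi]
    split_ifs with h
    · rw [hG, PowerSeries.coeff_mk, deg, ← h, ← pow_mul]
      have : m 0 + m 0 = 2 * m 0 := by ring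
      rw [this, sub_self]
    · rw [sub_zero]
  refine ⟨(1 - MvPolynomial.C (L ^ 2) * (MvPolynomial.X 0 * MvPolynomial.X 1)) -
      (1 - MvPolynomial.C L * MvPolynomial.X 0) * (1 - MvPolynomial.C L * MvPolynomial.X 1),
    (1 - MvPolynomial.C L * MvPolynomial.X 0) * (1 - MvPolynomial.C L * MvPolynomial.X 1) *
      (1 - MvPolynomial.C (L ^ 2) * (MvPolynomial.X 0 * MvPolynomial.X 1)), by simp, ?_⟩
  rw [hoff]
  have c1 : ∀ P Q : MvPolynomial (Fin 2) ℚ, ((P - Q : MvPolynomial (Fin 2) ℚ) : S) = P - Q := by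
    intro P Q
    exact map_sub (MvPolynomial.coeToMvPowerSeries.ringHom (σ := Fin 2) (R := ℚ)) P Q
  simp only [c1, MvPolynomial.coe_mul, MvPolynomial.coe_C, MvPolynomial.coe_X,
    MvPolynomial.coe_one]
  have hf := full_eq L
  calc (full L - phi G) * ((1 - C L * X 0) * (1 - C L * X 1) * (1 - C (L ^ 2) * (X 0 * X 1)))
      = ((1 - C L * X 0) * ((1 - C L * X 1) * full L)) * (1 - C (L ^ 2) * (X 0 * X 1)) -
        ((1 - C (L ^ 2) * (X 0 * X 1)) * phi G) * ((1 - C L * X 0) * (1 - C L * X 1)) := by ring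
    _ = _ := by rw [hf, hphiG]; ring

/-- Every algebraic power series with nonnegative coefficients is the diagonal of a rational
bivariate power series with nonnegative coefficients. -/
theorem nonneg_diag (F : PowerSeries ℚ) (hpos : ∀ n : ℕ, 0 ≤ PowerSeries.coeff n F)
    (hF : ∃ p : Polynomial (Polynomial ℚ), p ≠ 0 ∧ (toPS p).eval F = 0) :
    ∃ R : S, Rat R ∧ (∀ m, 0 ≤ coeff m R) ∧ ∀ n, coeff (dd n) R = PowerSeries.coeff n F := by
  obtain ⟨R0, hR0, hR0d⟩ := exists_rat_diag F hF
  obtain ⟨K, L, hK, hL, hb⟩ := rat_bound R0 hR0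
  refine ⟨R0 + C K * offDiag L, ?_, ?_, ?_⟩
  · refine hR0.add (Rat.mul ?_ (offDiag_rat L))
    have := Rat.of_poly (MvPolynomial.C K)
    simpa using this
  · intro m
    rw [map_add, coeff_C_mul, coeff_offDiag]
    split_ifs with h
    · rw [eq_dd h, hR0d, mul_zero, add_zero]
      exact hpos _
    · have := abs_le.mp (hb m)
      linarith [this.1]
  · intro n
    rw [map_add, coeff_C_mul, coeff_offDiag, if_pos (by rw [dd_zero_apply, dd_one_apply]),
      mul_zero, add_zero, hR0d]

end Pool.Agent.Helper10.Diag
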