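import Mathlib

/-!
# The curve `y² = x³ + a x + b` over any field: coordinates and addition formulas;
the number of points of `y² = x³ + a x` over `ZMod r`, `r ≡ 3 (mod 4)`.
-/

set_option linter.unusedSimpArgs false

namespace Pool.Agent.Helper10.SS

open WeierstrassCurve

/-- The Weierstrass curve `y² = x³ + a x + b` over a field. -/
abbrev EF {F : Type*} [Field F] (a b : F) : WeierstrassCurve.Affine F := ⟨0, 0, 0, a, b⟩

section
variable {F : Type*} [Field F] {a b : F}

/-- `P` is the affine point with coordinates `x, y`. -/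
def AtF (P : (EF a b).Point) (x y : F) : Prop :=
  ∃ h : (EF a b).Nonsingular x y, P = .some x y h

lemma eqnF_iff (x y : F) : (EF a b).Equation x y ↔ y ^ 2 = x ^ 3 + a * x + b := by
  rw [WeierstrassCurve.Affine.equation_iff]
  simp only [EF]
  constructor
  · intro h; linear_combination h
  · intro h; linear_combination h

lemma AtF.eqn {P : (EF a b).Point} {x y : F} (h : AtF P x y) :
    y ^ 2 = x ^ 3 + a * x + b := by
  obtain ⟨h, -⟩ := h
  exact (eqnF_iff x y).mp h.1

lemma AtF.ne_zero {P : (EF a b).Point} {x y : F} (h : AtF P x y) : P ≠ 0 := by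
  obtain ⟨h, rfl⟩ := h
  exact Affine.Point.some_ne_zero h

lemma zero_orF (P : (EF a b).Point) : P = 0 ∨ ∃ x y, AtF P x y := by
  rcases P with _ | ⟨x, y, h⟩
  · left; rfl
  · right; exact ⟨x, y, h, rfl⟩

lemma AtF.unique {P : (EF a b).Point} {x y x' y' : F} (h : AtF P x y) (h' : AtF P x' y') :
    x = x' ∧ y = y' := by
  obtain ⟨h, rfl⟩ := h
  obtain ⟨h', e⟩ := h'
  injection e with e1 e2
  exact ⟨e1, e2⟩

lemma AtF.eq {P Q : (EF a b).Point} {x y : F} (h : AtF P x y) (h' : AtF Q x y) : P = Q := by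
  obtain ⟨h, rfl⟩ := h
  obtain ⟨h', rfl⟩ := h'
  rfl

lemma AtF.neg {P : (EF a b).Point} {x y : F} (h : AtF P x y) : AtF (-P) x (-y) := by
  obtain ⟨h, rfl⟩ := h
  rw [Affine.Point.neg_some]
  have e : (EF a b).negY x y = -y := by
    simp [Affine.negY, EF]
  generalize hn : (EF a b).nonsingular_neg x y = hn'
  clear hn
  revert hn'
  rw [e]
  intro hn'
  exact ⟨hn'.mpr h, rfl⟩

variable [DecidableEq F]

lemma AtF.add {P Q : (EF a b).Point} {x₁ y₁ x₂ y₂ : F} (h₁ : AtF P x₁ y₁) (h₂ : AtF Q x₂ y₂)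
    (hx : x₁ ≠ x₂) :
    AtF (P + Q) (((y₁ - y₂) / (x₁ - x₂)) ^ 2 - x₁ - x₂)
      (-((y₁ - y₂) / (x₁ - x₂) * (((y₁ - y₂) / (x₁ - x₂)) ^ 2 - x₁ - x₂ - x₁) + y₁)) := by
  obtain ⟨h₁, rfl⟩ := h₁
  obtain ⟨h₂, rfl⟩ := h₂
  rw [Affine.Point.add_of_X_ne hx]
  have hs : (EF a b).slope x₁ x₂ y₁ y₂ = (y₁ - y₂) / (x₁ - x₂) := Affine.slope_of_X_ne hx
  have e1 : (EF a b).addX x₁ x₂ ((EF a b).slope x₁ x₂ y₁ y₂) =
      ((y₁ - y₂) / (x₁ - x₂)) ^ 2 - x₁ - x₂ := by
    rw [hs, Affine.addX]; simp [EF]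
  have e2 : (EF a b).addY x₁ x₂ y₁ ((EF a b).slope x₁ x₂ y₁ y₂) =
      (-((y₁ - y₂) / (x₁ - x₂) * (((y₁ - y₂) / (x₁ - x₂)) ^ 2 - x₁ - x₂ - x₁) + y₁)) := by
    rw [hs, Affine.addY, Affine.negAddY, Affine.addX, Affine.negY]; simp [EF]
  generalize hn : (Affine.nonsingular_add h₁ h₂ fun hxy => hx hxy.left) = hn'
  clear hn
  revert hn'
  rw [e1, e2]
  intro hn'
  exact ⟨hn', rfl⟩

lemma AtF.dbl {P : (EF a b).Point} {x y : F} (h : AtF P x y) (hy : 2 * y ≠ 0) :
    AtF (P + P) (((3 * x ^ 2 + a) / (2 * y)) ^ 2 - x - x)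
      (-((3 * x ^ 2 + a) / (2 * y) * (((3 * x ^ 2 + a) / (2 * y)) ^ 2 - x - x - x) + y)) := by
  obtain ⟨h, rfl⟩ := h
  have hy' : y ≠ (EF a b).negY x y := by
    simp only [Affine.negY, EF]
    intro h0
    apply hy
    linear_combination h0
  rw [Affine.Point.add_self_of_Y_ne hy']
  have hs : (EF a b).slope x x y y = (3 * x ^ 2 + a) / (2 * y) := by
    rw [Affine.slope_of_Y_ne rfl hy']
    simp only [Affine.negY, EF]
    congr 1
    · ring
    · ring
  have e1 : (EF a b).addX x x ((EF a b).slope x x y y) =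
      ((3 * x ^ 2 + a) / (2 * y)) ^ 2 - x - x := by
    rw [hs, Affine.addX]; simp [EF]
  have e2 : (EF a b).addY x x y ((EF a b).slope x x y y) =
      (-((3 * x ^ 2 + a) / (2 * y) * (((3 * x ^ 2 + a) / (2 * y)) ^ 2 - x - x - x) + y)) := by
    rw [Affine.addY, Affine.negAddY, e1, hs, Affine.negY]; simp [EF]
  generalize hn : (Affine.nonsingular_add h h fun hxy => hy' hxy.right) = hn'
  clear hn
  revert hn'
  rw [e1, e2]
  intro hn'
  exact ⟨hn', rfl⟩

lemma AtF.add_neg {P Q : (EF a b).Point} {x y : F} (h : AtF P x y) (h' : AtF Q x (-y)) :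
    P + Q = 0 := by
  have := h.neg.eq h'
  rw [← this, add_neg_cancel]

omit [DecidableEq F] in
/-- Nonsingularity in the form used for lifting. -/
lemma nonsing_of (x y : F) (h : y ^ 2 = x ^ 3 + a * x + b) (h' : 2 * y ≠ 0 ∨ 3 * x ^ 2 + a ≠ 0) :
    (EF a b).Nonsingular x y := by
  rw [Affine.nonsingular_iff]
  refine ⟨(eqnF_iff x y).mpr h, ?_⟩
  simp only [EF]
  rcases h' with h' | h'
  · right
    intro h0
    apply h'
    linear_combination h0
  · left
    intro h0
    apply h'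
    linear_combination -h0

end

section count

variable {r : ℕ} [Fact r.Prime]

/-- Number of points over a field with an odd quadratic character. -/
theorem card_point (a : ZMod r) (ha : a ≠ 0) (h4 : r % 4 = 3) :
    Nat.card (EF a (0 : ZMod r)).Point = r + 1 := by
  classical
  have hr2 : ringChar (ZMod r) ≠ 2 := by
    rw [ZMod.ringChar_zmod_n]
    omega
  have h2 : (2 : ZMod r) ≠ 0 := Ring.two_ne_zero hr2
  -- affine solutions
  let S : Type := {p : ZMod r × ZMod r // p.2 ^ 2 = p.1 ^ 3 + a * p.1}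
  have hns : ∀ p : S, (EF a (0 : ZMod r)).Nonsingular p.1.1 p.1.2 := by
    rintro ⟨⟨x, y⟩, h⟩
    simp only at h ⊢
    apply nonsing_of
    · rw [h]; ring
    · by_contra hcon
      push Not at hcon
      obtain ⟨h5, h6⟩ := hcon
      have hy : y = 0 := (mul_eq_zero.mp h5).resolve_left h2
      subst hy
      have h7 : x * (x ^ 2 + a) = 0 := by linear_combination -h
      rcases mul_eq_zero.mp h7 with h8 | h8
      · subst h8
        apply ha
        linear_combination h6
      · have h9 : 2 * a = 0 := by linear_combination 3 * h8 - h6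
        exact ha ((mul_eq_zero.mp h9).resolve_left h2)
  have e : Option S ≃ (EF a (0 : ZMod r)).Point := by
    refine Equiv.ofBijective (fun o => match o with
      | none => Affine.Point.zero
      | some p => .some p.1.1 p.1.2 (hns p)) ⟨?_, ?_⟩
    · rintro (_ | ⟨⟨x, y⟩, h⟩) (_ | ⟨⟨x', y'⟩, h'⟩) hh
      · rfl
      · simp at hh
      · simp at hh
      · simp only [Affine.Point.some.injEq] at hh
        obtain ⟨rfl, rfl⟩ := hh
        rfl
    · rintro (_ | ⟨x, y, h⟩)
      · exact ⟨none, rfl⟩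
      · refine ⟨some ⟨(x, y), ?_⟩, rfl⟩
        have := (eqnF_iff x y).mp h.1
        simp only
        rw [this]; ring
  rw [← Nat.card_congr e, Nat.card_eq_fintype_card, Fintype.card_option]
  congr 1
  -- count affine solutions
  have h3 : Fintype.card S = ∑ x : ZMod r, Fintype.card {y : ZMod r // y ^ 2 = x ^ 3 + a * x} := by
    rw [← Fintype.card_sigma]
    apply Fintype.card_congr
    exact {
      toFun := fun p => ⟨p.1.1, p.1.2, p.2⟩
      invFun := fun p => ⟨(p.1, p.2.1), p.2.2⟩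
      left_inv := fun p => rfl
      right_inv := fun p => rfl }
  have h5 : ∀ x : ZMod r, ((Fintype.card {y : ZMod r // y ^ 2 = x ^ 3 + a * x} : ℕ) : ℤ) =
      quadraticChar (ZMod r) (x ^ 3 + a * x) + 1 := by
    intro x
    rw [← quadraticChar_card_sqrts hr2 (x ^ 3 + a * x)]
    congr 1
    rw [Set.toFinset_card]
    apply Fintype.card_congr
    exact Equiv.refl _
  have hneg : quadraticChar (ZMod r) (-1) = -1 := by
    rw [quadraticChar_neg_one hr2, ZMod.card, ZMod.χ₄_nat_three_mod_four h4]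
  have h6 : ∑ x : ZMod r, quadraticChar (ZMod r) (x ^ 3 + a * x) = 0 := by
    have h7 : ∑ x : ZMod r, quadraticChar (ZMod r) (x ^ 3 + a * x) =
        ∑ x : ZMod r, quadraticChar (ZMod r) ((-x) ^ 3 + a * (-x)) :=
      (Equiv.sum_comp (Equiv.neg (ZMod r)) (fun x => quadraticChar (ZMod r) (x ^ 3 + a * x))).symm
    have h8 : ∀ x : ZMod r, quadraticChar (ZMod r) ((-x) ^ 3 + a * (-x)) =
        - quadraticChar (ZMod r) (x ^ 3 + a * x) := by
      intro x
      rw [show (-x) ^ 3 + a * (-x) = (-1) * (x ^ 3 + a * x) by ring, map_mul, hneg]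
      ring
    rw [Finset.sum_congr rfl (fun x _ => h8 x), Finset.sum_neg_distrib] at h7
    linarith
  have h9 : ((Fintype.card S : ℕ) : ℤ) = r := by
    rw [h3]
    push_cast
    rw [Finset.sum_congr rfl (fun x _ => h5 x), Finset.sum_add_distrib, h6]
    simp [ZMod.card]
  exact_mod_cast h9

end count

end Pool.Agent.Helper10.SS
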