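import Pool.Agent.Helper11.Cov.Padic
import Pool.Agent.Helper10.SSCurve

/-!
# Reduction of points of `y² = x³ + a x + b` modulo an odd prime of good reduction
-/

set_option linter.unusedSimpArgs false

namespace Pool.Agent.Helper10.SS

open WeierstrassCurve Pool.Agent.Helper11.Cov

section rat
variable {r : ℕ} [hr : Fact r.Prime]

lemma cast_den_ne {x : ℚ} (h : padicNorm r x ≤ 1) : (x.den : ZMod r) ≠ 0 := by
  intro h0
  rw [ZMod.natCast_eq_zero_iff] at h0
  have h1 : padicNorm r (x.den : ℚ) < 1 := (padicNorm.nat_lt_one_iff x.den).mpr h0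
  have h2 : ¬ ((r : ℤ) ∣ x.num) := by
    intro h3
    have h4 : r ∣ x.num.natAbs := Int.natCast_dvd.mp h3
    have h5 := Nat.dvd_gcd h4 h0
    rw [x.reduced] at h5
    exact hr.out.one_lt.ne' (Nat.dvd_one.mp h5)
  have h3 : padicNorm r (x.num : ℚ) = 1 := (padicNorm.int_eq_one_iff x.num).mpr h2
  have h4 : x * x.den = x.num := Rat.mul_den_eq_num x
  have h5 : padicNorm r x * padicNorm r (x.den : ℚ) = 1 := by
    rw [← padicNorm.mul, h4, h3]
  have h6 : 0 ≤ padicNorm r (x.den : ℚ) := padicNorm.nonneg _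
  have h7 : 0 ≤ padicNorm r x := padicNorm.nonneg _
  nlinarith

lemma cast_eq_zero_iff {x : ℚ} (h : padicNorm r x ≤ 1) :
    ((x : ℚ) : ZMod r) = 0 ↔ padicNorm r x < 1 := by
  have hd := cast_den_ne h
  have h1 : ((x : ℚ) : ZMod r) = (x.num : ZMod r) / (x.den : ZMod r) := Rat.cast_def x
  rw [h1, div_eq_zero_iff, or_iff_left hd, ZMod.intCast_zmod_eq_zero_iff_dvd,
    ← padicNorm.int_lt_one_iff]
  have h3 : ¬ (r ∣ x.den) := by rwa [Ne, ZMod.natCast_eq_zero_iff] at hd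
  have h4 : padicNorm r (x.den : ℚ) = 1 := (padicNorm.nat_eq_one_iff x.den).mpr h3
  have h5 : padicNorm r x = padicNorm r (x.num : ℚ) := by
    rw [← Rat.mul_den_eq_num x, padicNorm.mul, h4, mul_one]
  rw [h5]

lemma cast_num_ne {x : ℚ} (h : padicNorm r x = 1) : (x.num : ZMod r) ≠ 0 := by
  intro h0
  have h1 : ((x : ℚ) : ZMod r) = (x.num : ZMod r) / (x.den : ZMod r) := Rat.cast_def x
  rw [h0, zero_div, cast_eq_zero_iff h.le] at h1
  exact absurd h (ne_of_lt h1)

lemma cast_add' {x y : ℚ} (hx : padicNorm r x ≤ 1) (hy : padicNorm r y ≤ 1) :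
    ((x + y : ℚ) : ZMod r) = x + y :=
  Rat.cast_add_of_ne_zero (cast_den_ne hx) (cast_den_ne hy)

lemma cast_sub' {x y : ℚ} (hx : padicNorm r x ≤ 1) (hy : padicNorm r y ≤ 1) :
    ((x - y : ℚ) : ZMod r) = x - y :=
  Rat.cast_sub_of_ne_zero (cast_den_ne hx) (cast_den_ne hy)

lemma cast_mul' {x y : ℚ} (hx : padicNorm r x ≤ 1) (hy : padicNorm r y ≤ 1) :
    ((x * y : ℚ) : ZMod r) = x * y :=
  Rat.cast_mul_of_ne_zero (cast_den_ne hx) (cast_den_ne hy)

lemma cast_div' {x y : ℚ} (hx : padicNorm r x ≤ 1) (hy : padicNorm r y = 1) :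
    ((x / y : ℚ) : ZMod r) = x / y :=
  Rat.cast_div_of_ne_zero (cast_den_ne hx) (cast_num_ne hy)

lemma cast_sq' {x : ℚ} (hx : padicNorm r x ≤ 1) : ((x ^ 2 : ℚ) : ZMod r) = x ^ 2 := by
  rw [pow_two, pow_two, cast_mul' hx hx]

lemma le_mul {x y : ℚ} (hx : padicNorm r x ≤ 1) (hy : padicNorm r y ≤ 1) :
    padicNorm r (x * y) ≤ 1 := by
  rw [padicNorm.mul]
  have := padicNorm.nonneg (p := r) x
  have := padicNorm.nonneg (p := r) y
  nlinarith

lemma le_sq {x : ℚ} (hx : padicNorm r x ≤ 1) : padicNorm r (x ^ 2) ≤ 1 := by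
  rw [pow_two]; exact le_mul hx hx

lemma le_add {x y : ℚ} (hx : padicNorm r x ≤ 1) (hy : padicNorm r y ≤ 1) :
    padicNorm r (x + y) ≤ 1 := padicNorm.nonarchimedean.trans (max_le hx hy)

lemma le_sub {x y : ℚ} (hx : padicNorm r x ≤ 1) (hy : padicNorm r y ≤ 1) :
    padicNorm r (x - y) ≤ 1 := padicNorm.sub.trans (max_le hx hy)

lemma norm_div (x y : ℚ) : padicNorm r (x / y) = padicNorm r x / padicNorm r y :=
  padicNorm.div x y

lemma eq_one_of_cast_ne {x : ℚ} (hx : padicNorm r x ≤ 1) (h : ((x : ℚ) : ZMod r) ≠ 0) :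
    padicNorm r x = 1 := by
  rw [Ne, cast_eq_zero_iff hx] at h
  exact le_antisymm hx (not_lt.mp h)

end rat

section red
variable {a b : ℤ} {r : ℕ} [hr : Fact r.Prime]

/-- The reduced curve. -/
abbrev Er (a b : ℤ) (r : ℕ) [Fact r.Prime] : WeierstrassCurve.Affine (ZMod r) :=
  EF (a : ZMod r) (b : ZMod r)

/-- `P'` is the reduction of `P`. -/
def Red (P : (E a b).Point) (P' : (Er a b r).Point) : Prop :=
  (InH r P ∧ P' = 0) ∨ ∃ x y : ℚ, At P x y ∧ padicNorm r x ≤ 1 ∧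
    AtF P' (x : ZMod r) (y : ZMod r)

/-- Good odd prime. -/
def GoodAt (a b : ℤ) (r : ℕ) : Prop := r ≠ 2 ∧ ¬ ((r : ℤ) ∣ 4 * a ^ 3 + 27 * b ^ 2)

lemma red_eqn {x y : ℚ} (h : y ^ 2 = x ^ 3 + a * x + b) (hx : padicNorm r x ≤ 1) :
    (y : ZMod r) ^ 2 = (x : ZMod r) ^ 3 + a * (x : ZMod r) + b := by
  have hy := norm_y_le h hx
  have ha : padicNorm r (a : ℚ) ≤ 1 := padicNorm.of_int a
  have hb : padicNorm r (b : ℚ) ≤ 1 := padicNorm.of_int b
  have h1 : ((y ^ 2 : ℚ) : ZMod r) = ((x ^ 3 + a * x + b : ℚ) : ZMod r) :=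
    congrArg (fun z : ℚ => (z : ZMod r)) h
  rw [show x ^ 3 = x ^ 2 * x by ring] at h1
  rw [cast_sq' hy, cast_add' (le_add (le_mul (le_sq hx) hx) (le_mul ha hx)) hb,
    cast_add' (le_mul (le_sq hx) hx) (le_mul ha hx), cast_mul' (le_sq hx) hx, cast_sq' hx,
    cast_mul' ha hx, Rat.cast_intCast, Rat.cast_intCast] at h1
  rw [h1]; ring

lemma two_ne (hg : GoodAt a b r) : (2 : ZMod r) ≠ 0 := by
  apply Ring.two_ne_zero
  rw [ZMod.ringChar_zmod_n]
  exact hg.1

lemma red_nonsing (hg : GoodAt a b r) {x y : ZMod r} (h : y ^ 2 = x ^ 3 + a * x + b) :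
    2 * y ≠ 0 ∨ 3 * x ^ 2 + (a : ZMod r) ≠ 0 := by
  by_contra hcon
  push Not at hcon
  obtain ⟨h1, h2⟩ := hcon
  have hy : y = 0 := (mul_eq_zero.mp h1).resolve_left (two_ne hg)
  subst hy
  apply hg.2
  rw [← ZMod.intCast_zmod_eq_zero_iff_dvd]
  push_cast
  have e1 : x ^ 3 + a * x + b = 0 := by rw [← h]; ring
  have e2 : 3 * (b : ZMod r) = -(2 * a * x) := by linear_combination 3 * e1 - x * h2
  have e3 : 27 * (b : ZMod r) ^ 2 = 3 * (2 * a * x) ^ 2 := by
    calc 27 * (b : ZMod r) ^ 2 = 3 * (3 * (b : ZMod r)) ^ 2 := by ring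
      _ = _ := by rw [e2]; ring
  rw [e3]
  linear_combination 4 * (a : ZMod r) ^ 2 * h2

lemma exists_red (hg : GoodAt a b r) (P : (E a b).Point) : ∃ P' : (Er a b r).Point, Red P P' := by
  by_cases h : InH r P
  · exact ⟨0, Or.inl ⟨h, rfl⟩⟩
  · rcases zero_or P with rfl | ⟨x, y, hxy⟩
    · exact absurd inH_zero h
    · rw [hxy.inH_iff, not_lt] at h
      have h1 := red_eqn hxy.eqn h
      exact ⟨.some _ _ (nonsing_of _ _ h1 (red_nonsing hg h1)), Or.inr ⟨x, y, hxy, h, _, rfl⟩⟩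

lemma Red.unique {P : (E a b).Point} {P' P'' : (Er a b r).Point} (h : Red P P')
    (h' : Red P P'') : P' = P'' := by
  rcases h with ⟨h1, rfl⟩ | ⟨x, y, h1, h2, h3⟩
  · rcases h' with ⟨-, rfl⟩ | ⟨x, y, h1', h2', h3'⟩
    · rfl
    · exact absurd (h1'.inH_iff.mp h1) (not_lt.mpr h2')
  · rcases h' with ⟨h1', -⟩ | ⟨x', y', h1', h2', h3'⟩
    · exact absurd (h1.inH_iff.mp h1') (not_lt.mpr h2)
    · obtain ⟨rfl, rfl⟩ := h1.unique h1'
      exact h3.eq h3'

lemma Red.inH {P : (E a b).Point} (h : Red P (0 : (Er a b r).Point)) : InH r P := by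
  rcases h with ⟨h1, -⟩ | ⟨x, y, h1, h2, h3⟩
  · exact h1
  · exact absurd rfl h3.ne_zero

lemma Red.of_inH {P : (E a b).Point} (h : InH r P) : Red P (0 : (Er a b r).Point) :=
  Or.inl ⟨h, rfl⟩

lemma Red.neg {P : (E a b).Point} {P' : (Er a b r).Point} (h : Red P P') : Red (-P) (-P') := by
  rcases h with ⟨h1, rfl⟩ | ⟨x, y, h1, h2, h3⟩
  · rw [neg_zero]; exact Or.inl ⟨h1.neg, rfl⟩
  · refine Or.inr ⟨x, -y, h1.neg, h2, ?_⟩
    rw [Rat.cast_neg]
    exact h3.neg

/-- Reduction of a sum given by a chord or tangent with integral slope. -/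
lemma red_sum {P Q : (E a b).Point} {P' Q' : (Er a b r).Point} {x₁ y₁ x₂ m : ℚ}
    (hx₁ : padicNorm r x₁ ≤ 1) (hy₁ : padicNorm r y₁ ≤ 1) (hx₂ : padicNorm r x₂ ≤ 1)
    (hm : padicNorm r m ≤ 1)
    (h : At (P + Q) (m ^ 2 - x₁ - x₂) (-(m * (m ^ 2 - x₁ - x₂ - x₁) + y₁)))
    (h' : AtF (P' + Q') ((m : ZMod r) ^ 2 - x₁ - x₂)
      (-((m : ZMod r) * ((m : ZMod r) ^ 2 - x₁ - x₂ - x₁) + y₁))) : Red (P + Q) (P' + Q') := by
  have i1 : padicNorm r (m ^ 2 - x₁) ≤ 1 := le_sub (le_sq hm) hx₁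
  have i2 : padicNorm r (m ^ 2 - x₁ - x₂) ≤ 1 := le_sub i1 hx₂
  have i3 : padicNorm r (m ^ 2 - x₁ - x₂ - x₁) ≤ 1 := le_sub i2 hx₁
  refine Or.inr ⟨_, _, h, i2, ?_⟩
  rw [Rat.cast_neg, cast_add' (le_mul hm i3) hy₁, cast_mul' hm i3, cast_sub' i2 hx₁,
    cast_sub' i1 hx₂, cast_sub' (le_sq hm) hx₁, cast_sq' hm]
  exact h'

/-- A sum with non-integral slope lies in the kernel of reduction. -/
lemma inH_sum {P : (E a b).Point} {x₁ x₂ m y : ℚ}
    (hx₁ : padicNorm r x₁ ≤ 1) (hx₂ : padicNorm r x₂ ≤ 1) (hm : 1 < padicNorm r m)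
    (h : At P (m ^ 2 - x₁ - x₂) y) : InH r P := by
  rw [h.inH_iff]
  have h1 : padicNorm r (x₁ + x₂) ≤ 1 := le_add hx₁ hx₂
  have h2 : 1 < padicNorm r (m ^ 2) := by rw [pow_two, padicNorm.mul]; nlinarith
  have h3 : padicNorm r (m ^ 2 + -(x₁ + x₂)) = padicNorm r (m ^ 2) := by
    apply norm_add_of_lt
    rw [padicNorm.neg]
    linarith
  rw [show m ^ 2 - x₁ - x₂ = m ^ 2 + -(x₁ + x₂) by ring, h3]
  exact h2

lemma Red.add_int (hg : GoodAt a b r) {P Q : (E a b).Point} {x₁ y₁ x₂ y₂ : ℚ}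
    {P' Q' : (Er a b r).Point}
    (h₁ : At P x₁ y₁) (h₂ : At Q x₂ y₂) (hx₁ : padicNorm r x₁ ≤ 1) (hx₂ : padicNorm r x₂ ≤ 1)
    (h₁' : AtF P' (x₁ : ZMod r) (y₁ : ZMod r)) (h₂' : AtF Q' (x₂ : ZMod r) (y₂ : ZMod r)) :
    Red (P + Q) (P' + Q') := by
  have hy₁ := norm_y_le h₁.eqn hx₁
  have hy₂ := norm_y_le h₂.eqn hx₂
  have h20 := two_ne hg
  have ha : padicNorm r (a : ℚ) ≤ 1 := padicNorm.of_int a
  have n2 : padicNorm r (2 : ℚ) ≤ 1 := by exact_mod_cast padicNorm.of_int (p := r) 2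
  have n3 : padicNorm r (3 : ℚ) ≤ 1 := by exact_mod_cast padicNorm.of_int (p := r) 3
  have c2 : ((2 : ℚ) : ZMod r) = 2 := by exact_mod_cast Rat.cast_natCast (α := ZMod r) 2
  have c3 : ((3 : ℚ) : ZMod r) = 3 := by exact_mod_cast Rat.cast_natCast (α := ZMod r) 3
  by_cases hx' : (x₁ : ZMod r) = (x₂ : ZMod r)
  swap
  · -- different abscissas modulo r
    have hxne : x₁ ≠ x₂ := by rintro rfl; exact hx' rfl
    have hd : padicNorm r (x₁ - x₂) = 1 := by
      apply eq_one_of_cast_ne (le_sub hx₁ hx₂)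
      rw [cast_sub' hx₁ hx₂]
      exact sub_ne_zero.mpr hx'
    have hm : padicNorm r ((y₁ - y₂) / (x₁ - x₂)) ≤ 1 := by
      rw [norm_div, hd, div_one]; exact le_sub hy₁ hy₂
    refine red_sum hx₁ hy₁ hx₂ hm (h₁.add h₂ hxne) ?_
    rw [cast_div' (le_sub hy₁ hy₂) hd, cast_sub' hy₁ hy₂, cast_sub' hx₁ hx₂]
    exact h₁'.add h₂' hx'
  -- same abscissas modulo r
  have q₁ := h₁'.eqn
  have q₂ := h₂'.eqn
  have hN : padicNorm r (x₁ ^ 2 + x₁ * x₂ + x₂ ^ 2 + a) ≤ 1 :=
    le_add (le_add (le_add (le_sq hx₁) (le_mul hx₁ hx₂)) (le_sq hx₂)) ha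
  have cN : ((x₁ ^ 2 + x₁ * x₂ + x₂ ^ 2 + a : ℚ) : ZMod r) = 3 * (x₁ : ZMod r) ^ 2 + a := by
    rw [cast_add' (le_add (le_add (le_sq hx₁) (le_mul hx₁ hx₂)) (le_sq hx₂)) ha,
      cast_add' (le_add (le_sq hx₁) (le_mul hx₁ hx₂)) (le_sq hx₂),
      cast_add' (le_sq hx₁) (le_mul hx₁ hx₂), cast_sq' hx₁, cast_mul' hx₁ hx₂, cast_sq' hx₂,
      ← hx', Rat.cast_intCast]
    ring
  have hprod : (y₁ - y₂) * (y₁ + y₂) = (x₁ - x₂) * (x₁ ^ 2 + x₁ * x₂ + x₂ ^ 2 + a) := by
    linear_combination h₁.eqn - h₂.eqn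
  by_cases hyy : (y₁ : ZMod r) + (y₂ : ZMod r) = 0
  · -- opposite points
    have hz : P' + Q' = 0 := by
      refine h₁'.add_neg ?_
      have : (y₂ : ZMod r) = -(y₁ : ZMod r) := by linear_combination hyy
      rw [← this, hx']
      exact h₂'
    rw [hz]
    apply Red.of_inH
    by_cases hxx : x₁ = x₂
    · subst hxx
      rcases h₁.same_x h₂ with rfl | rfl
      · -- doubling of a point with y ≡ 0
        obtain ⟨-, rfl⟩ := h₁.unique h₂
        by_cases hy0 : y₁ = 0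
        · subst hy0
          rw [h₁.dbl_zero]; exact inH_zero
        have hyz : (y₁ : ZMod r) = 0 := by
          have : 2 * (y₁ : ZMod r) = 0 := by linear_combination hyy
          exact (mul_eq_zero.mp this).resolve_left h20
        have hns := (red_nonsing hg q₁).resolve_left (by rw [hyz]; simp)
        have hyn : padicNorm r y₁ < 1 := (cast_eq_zero_iff hy₁).mp hyz
        have hnum : padicNorm r (3 * x₁ ^ 2 + a) = 1 := by
          apply eq_one_of_cast_ne (le_add (le_mul n3 (le_sq hx₁)) ha)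
          rw [cast_add' (le_mul n3 (le_sq hx₁)) ha, cast_mul' n3 (le_sq hx₁), cast_sq' hx₁, c3,
            Rat.cast_intCast]
          exact hns
        have hden : padicNorm r (2 * y₁) < 1 := by
          rw [padicNorm.mul]
          have := padicNorm.nonneg (p := r) (2 : ℚ)
          have := padicNorm.nonneg (p := r) y₁
          nlinarith
        have hden0 : 0 < padicNorm r (2 * y₁) := by
          apply lt_of_le_of_ne (padicNorm.nonneg _) (Ne.symm (padicNorm.nonzero _))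
          simpa using hy0
        have hm : 1 < padicNorm r ((3 * x₁ ^ 2 + a) / (2 * y₁)) := by
          rw [norm_div, hnum, one_div]
          exact (one_lt_inv₀ hden0).mpr hden
        have hdb := h₁.dbl hy0
        rw [show ((3 * x₁ ^ 2 + a) / (2 * y₁)) ^ 2 - 2 * x₁ =
          ((3 * x₁ ^ 2 + a) / (2 * y₁)) ^ 2 - x₁ - x₁ by ring] at hdb
        exact inH_sum hx₁ hx₁ hm hdb
      · rw [neg_add_cancel]; exact inH_zero
    · -- chord with non-integral slope
      have hsub : x₁ - x₂ ≠ 0 := sub_ne_zero.mpr hxx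
      have hd0 : 0 < padicNorm r (x₁ - x₂) :=
        lt_of_le_of_ne (padicNorm.nonneg _) (Ne.symm (padicNorm.nonzero hsub))
      have hd1 : padicNorm r (x₁ - x₂) < 1 := by
        rw [← cast_eq_zero_iff (le_sub hx₁ hx₂), cast_sub' hx₁ hx₂, hx', sub_self]
      have hm : 1 < padicNorm r ((y₁ - y₂) / (x₁ - x₂)) := by
        rw [norm_div, lt_div_iff₀ hd0, one_mul]
        by_cases hy0 : (y₁ : ZMod r) = 0
        · have hy0' : (y₂ : ZMod r) = 0 := by rw [hy0, zero_add] at hyy; exact hyy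
          have hns := (red_nonsing hg q₁).resolve_left (by rw [hy0]; simp)
          have hNn : padicNorm r (x₁ ^ 2 + x₁ * x₂ + x₂ ^ 2 + a) = 1 := by
            apply eq_one_of_cast_ne hN
            rw [cN]; exact hns
          have hs1 : padicNorm r (y₁ + y₂) < 1 := by
            rw [← cast_eq_zero_iff (le_add hy₁ hy₂), cast_add' hy₁ hy₂, hyy]
          have h5 := congrArg (padicNorm r) hprod
          rw [padicNorm.mul, padicNorm.mul, hNn, mul_one] at h5
          rw [← h5]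
          have h6 : 0 ≤ padicNorm r (y₁ - y₂) := padicNorm.nonneg _
          have h7 : padicNorm r (y₁ - y₂) ≠ 0 := by
            intro h8
            rw [h8, zero_mul] at h5
            linarith
          have h9 : 0 < padicNorm r (y₁ - y₂) := lt_of_le_of_ne h6 (Ne.symm h7)
          nlinarith
        · have h5 : padicNorm r (y₁ - y₂) = 1 := by
            apply eq_one_of_cast_ne (le_sub hy₁ hy₂)
            rw [cast_sub' hy₁ hy₂]
            intro h6
            have : 2 * (y₁ : ZMod r) = 0 := by linear_combination hyy + h6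
            exact hy0 ((mul_eq_zero.mp this).resolve_left h20)
          rw [h5]; exact hd1
      exact inH_sum hx₁ hx₂ hm (h₁.add h₂ hxx)
  · -- equal points modulo r, doubling modulo r
    have hyeq : (y₁ : ZMod r) = (y₂ : ZMod r) := by
      have h5 : ((y₁ : ZMod r) - y₂) * (y₁ + y₂) = 0 := by
        rw [hx'] at q₁
        linear_combination q₁ - q₂
      exact sub_eq_zero.mp ((mul_eq_zero.mp h5).resolve_right hyy)
    have hQ' : Q' = P' := by
      rw [← hx', ← hyeq] at h₂'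
      exact h₂'.eq h₁'
    have h2y : 2 * (y₁ : ZMod r) ≠ 0 := by
      intro h5
      apply hyy
      rw [← hyeq]; linear_combination h5
    have hdb := h₁'.dbl h2y
    rw [hQ']
    by_cases hxx : x₁ = x₂
    · subst hxx
      have hPQ : P = Q := by
        rcases h₁.same_x h₂ with h5 | h5
        · exact h5
        · exfalso
          rw [h5] at h₁
          obtain ⟨-, h6⟩ := h₁.unique h₂.neg
          apply hyy
          rw [h6, Rat.cast_neg]
          ring
      subst hPQ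
      have hy0 : y₁ ≠ 0 := by
        rintro rfl
        apply h2y
        simp
      have hden : padicNorm r (2 * y₁) = 1 := by
        apply eq_one_of_cast_ne (le_mul n2 hy₁)
        rw [cast_mul' n2 hy₁, c2]
        exact h2y
      have hnum : padicNorm r (3 * x₁ ^ 2 + a) ≤ 1 := le_add (le_mul n3 (le_sq hx₁)) ha
      have hm : padicNorm r ((3 * x₁ ^ 2 + a) / (2 * y₁)) ≤ 1 := by
        rw [norm_div, hden, div_one]; exact hnum
      have hdb' := h₁.dbl hy0
      rw [show ((3 * x₁ ^ 2 + a) / (2 * y₁)) ^ 2 - 2 * x₁ =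
          ((3 * x₁ ^ 2 + a) / (2 * y₁)) ^ 2 - x₁ - x₁ by ring] at hdb'
      refine red_sum hx₁ hy₁ hx₁ hm hdb' ?_
      rw [cast_div' hnum hden, cast_mul' n2 hy₁, c2,
        cast_add' (le_mul n3 (le_sq hx₁)) ha, cast_mul' n3 (le_sq hx₁), cast_sq' hx₁, c3,
        Rat.cast_intCast]
      exact hdb
    · have hsub : x₁ - x₂ ≠ 0 := sub_ne_zero.mpr hxx
      have hs : padicNorm r (y₁ + y₂) = 1 := by
        apply eq_one_of_cast_ne (le_add hy₁ hy₂)
        rw [cast_add' hy₁ hy₂]; exact hyy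
      have hs0 : y₁ + y₂ ≠ 0 := by
        intro h5
        rw [h5] at hs
        simp at hs
      have hslope : (y₁ - y₂) / (x₁ - x₂) = (x₁ ^ 2 + x₁ * x₂ + x₂ ^ 2 + a) / (y₁ + y₂) := by
        rw [div_eq_div_iff hsub hs0]
        linear_combination hprod
      have hadd := h₁.add h₂ hxx
      rw [hslope] at hadd
      have hm : padicNorm r ((x₁ ^ 2 + x₁ * x₂ + x₂ ^ 2 + a) / (y₁ + y₂)) ≤ 1 := by
        rw [norm_div, hs, div_one]; exact hN
      refine red_sum hx₁ hy₁ hx₂ hm hadd ?_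
      rw [cast_div' hN hs, cN, cast_add' hy₁ hy₂, ← hyeq, ← hx',
        show (y₁ : ZMod r) + y₁ = 2 * y₁ by ring]
      exact hdb

/-- Reduction is a homomorphism. -/
theorem Red.add (hg : GoodAt a b r) {P Q : (E a b).Point} {P' Q' : (Er a b r).Point}
    (h : Red P P') (h' : Red Q Q') : Red (P + Q) (P' + Q') := by
  -- the mixed case
  have mixed : ∀ {P Q : (E a b).Point} {Q' : (Er a b r).Point}, InH r P → Red Q Q' →
      Red (P + Q) Q' := by
    intro P Q Q' hP hQ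
    rcases hQ with ⟨h1, rfl⟩ | ⟨x, y, h1, h2, h3⟩
    · exact Or.inl ⟨hP.add h1, rfl⟩
    · have hQn : ¬ InH r Q := by rw [h1.inH_iff]; exact not_lt.mpr h2
      have hR : ¬ InH r (P + Q) := by
        intro h5
        apply hQn
        have := h5.sub hP
        rwa [add_sub_cancel_left] at this
      obtain ⟨R', hR'⟩ := exists_red hg (P + Q)
      rcases hR' with ⟨h5, -⟩ | ⟨u, v, h5, h6, h7⟩
      · exact absurd h5 hR
      · have h8 := Red.add_int hg h5 h1.neg h6 h2 h7 (by rw [Rat.cast_neg]; exact h3.neg)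
        rw [add_neg_cancel_right] at h8
        have h9 : R' + -Q' = 0 := h8.unique (Red.of_inH hP)
        have h10 : R' = Q' := by rwa [add_neg_eq_zero] at h9
        rw [← h10]
        exact Or.inr ⟨u, v, h5, h6, h7⟩
  rcases h with ⟨h1, rfl⟩ | ⟨x₁, y₁, h1, h2, h3⟩
  · rw [zero_add]; exact mixed h1 h'
  · rcases h' with ⟨h1', rfl⟩ | ⟨x₂, y₂, h1', h2', h3'⟩
    · rw [add_zero, add_comm]
      exact mixed h1' (Or.inr ⟨x₁, y₁, h1, h2, h3⟩)
    · exact Red.add_int hg h1 h1' h2 h2' h3 h3'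

/-- The reduction homomorphism. -/
noncomputable def redHom (hg : GoodAt a b r) : (E a b).Point →+ (Er a b r).Point where
  toFun P := (exists_red hg P).choose
  map_zero' := (exists_red hg 0).choose_spec.unique (Red.of_inH inH_zero)
  map_add' P Q := (exists_red hg (P + Q)).choose_spec.unique
    ((exists_red hg P).choose_spec.add hg (exists_red hg Q).choose_spec)

lemma redHom_spec (hg : GoodAt a b r) (P : (E a b).Point) : Red P (redHom hg P) :=
  (exists_red hg P).choose_spec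

lemma redHom_eq_zero_iff (hg : GoodAt a b r) (P : (E a b).Point) :
    redHom hg P = 0 ↔ InH r P := by
  constructor
  · intro h
    have := redHom_spec hg P
    rw [h] at this
    exact this.inH
  · intro h
    exact (redHom_spec hg P).unique (Red.of_inH h)

/-- If the reduced curve has `n` points, `n • P` lies in the kernel of reduction. -/
theorem kill_of_card (hg : GoodAt a b r) {n : ℕ} (hn : Nat.card (Er a b r).Point = n)
    (P : (E a b).Point) : InH r (n • P) := by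
  rw [← redHom_eq_zero_iff hg, map_nsmul, ← hn]
  exact card_nsmul_eq_zero'

end red

/-- **Supersingular reduction.** -/
theorem kill' (a : ℤ) (r : ℕ) [Fact r.Prime] (h4 : r % 4 = 3) (hra : ¬ (r : ℤ) ∣ a)
    (P : (E a 0).Point) : InH r ((r + 1) • P) := by
  have hr2 : r ≠ 2 := by rintro rfl; omega
  have hg : GoodAt a 0 r := by
    refine ⟨hr2, ?_⟩
    intro h
    have h1 : (r : ℤ) ∣ 4 * a ^ 3 := by simpa using h
    have hp : Prime (r : ℤ) := Nat.prime_iff_prime_int.mp (Fact.out : r.Prime)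
    rcases hp.dvd_mul.mp h1 with h2 | h2
    · have h3 : (r : ℤ) ∣ 2 ^ 2 := by norm_num; exact h2
      have h4' := hp.dvd_of_dvd_pow h3
      have h5 : r ∣ 2 := by exact_mod_cast h4'
      exact hr2 ((Nat.prime_dvd_prime_iff_eq Fact.out Nat.prime_two).mp h5)
    · exact hra (hp.dvd_of_dvd_pow h2)
  apply kill_of_card hg
  have ha : (a : ZMod r) ≠ 0 := by
    rwa [Ne, ZMod.intCast_zmod_eq_zero_iff_dvd]
  have h := card_point (a : ZMod r) ha h4
  have e : Er a 0 r = EF (a : ZMod r) 0 := by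
    simp [Er]
  rw [e]
  exact h

/-- The statement asked for in task 105. -/
theorem kill (a : ℤ) (r : ℕ) [Fact r.Prime] (h4 : r % 4 = 3) (hra : ¬ (r : ℤ) ∣ a)
    (P : WeierstrassCurve.Affine.Point (⟨0, 0, 0, a, 0⟩ : WeierstrassCurve ℚ)) :
    ∀ x y h, (r + 1) • P = .some x y h → 1 < padicNorm r x := by
  have e : (⟨0, 0, 0, a, 0⟩ : WeierstrassCurve ℚ) = E a 0 := by
    simp [E]
  revert P
  rw [e]
  intro P x y h hP
  exact kill' a r h4 hra P x y ⟨h, hP⟩

end Pool.Agent.Helper10.SS
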