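import Pool.Agent.Helper10.SSRed

/-!
# Supersingular reduction of `y² = x³ + b` at primes `r ≡ 2 (mod 3)`
-/

namespace Pool.Agent.Helper10.SS

open WeierstrassCurve Pool.Agent.Helper11.Cov

section count

variable {r : ℕ} [Fact r.Prime]

/-- For `r ≡ 2 (mod 3)` cubing is injective on `ZMod r`. -/
lemma cube_injective (h3 : r % 3 = 2) : Function.Injective (fun x : ZMod r => x ^ 3) := by
  have hr : r.Prime := Fact.out
  have hcop : (Nat.card (ZMod r)ˣ).Coprime 3 := by
    rw [Nat.card_eq_fintype_card, ZMod.card_units_eq_totient, Nat.totient_prime hr]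
    rw [Nat.coprime_comm, Nat.Prime.coprime_iff_not_dvd Nat.prime_three]
    have := hr.two_le
    omega
  intro x y hxy
  simp only at hxy
  by_cases hx : x = 0
  · subst hx
    rw [zero_pow (by norm_num)] at hxy
    exact (pow_eq_zero_iff (by norm_num)).mp hxy.symm |>.symm
  · have hy : y ≠ 0 := by
      rintro rfl
      rw [zero_pow (by norm_num)] at hxy
      exact hx ((pow_eq_zero_iff (by norm_num)).mp hxy)
    have h1 : (Units.mk0 x hx) ^ 3 = (Units.mk0 y hy) ^ 3 := by
      ext
      simpa using hxy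
    have h2 := (powCoprime hcop).injective (a₁ := Units.mk0 x hx) (a₂ := Units.mk0 y hy) (by
      simpa [powCoprime] using h1)
    have h3 := congrArg Units.val h2
    simpa using h3

/-- Number of points of `y² = x³ + b` over `ZMod r`, `r ≡ 2 (mod 3)`. -/
theorem card_point_b (b : ZMod r) (hb : b ≠ 0) (h3 : r % 3 = 2) (hr2 : r ≠ 2) :
    Nat.card (EF (0 : ZMod r) b).Point = r + 1 := by
  classical
  have hr2' : ringChar (ZMod r) ≠ 2 := by
    rw [ZMod.ringChar_zmod_n]
    exact hr2
  have h2 : (2 : ZMod r) ≠ 0 := Ring.two_ne_zero hr2'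
  have h3' : (3 : ZMod r) ≠ 0 := by
    intro h
    have h' : ((3 : ℕ) : ZMod r) = 0 := by exact_mod_cast h
    rw [ZMod.natCast_eq_zero_iff] at h'
    have h'' := (Nat.prime_dvd_prime_iff_eq (Fact.out : r.Prime) Nat.prime_three).mp h'
    omega
  have hinj := cube_injective (r := r) h3
  have hbij : Function.Bijective (fun x : ZMod r => x ^ 3) :=
    Finite.injective_iff_bijective.mp hinj
  -- affine solutions
  let S : Type := {p : ZMod r × ZMod r // p.2 ^ 2 = p.1 ^ 3 + b}
  have hns : ∀ p : S, (EF (0 : ZMod r) b).Nonsingular p.1.1 p.1.2 := by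
    rintro ⟨⟨x, y⟩, h⟩
    simp only at h ⊢
    apply nonsing_of
    · rw [h]; ring
    · by_contra hcon
      push Not at hcon
      obtain ⟨h5, h6⟩ := hcon
      have hy : y = 0 := (mul_eq_zero.mp h5).resolve_left h2
      subst hy
      have h7 : x ^ 2 = 0 := by
        have : 3 * x ^ 2 = 0 := by linear_combination h6
        exact (mul_eq_zero.mp this).resolve_left h3'
      have h8 : x = 0 := (pow_eq_zero_iff (by norm_num)).mp h7
      subst h8
      apply hb
      linear_combination -h
  have e : Option S ≃ (EF (0 : ZMod r) b).Point := by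
    refine Equiv.ofBijective (fun o => match o with
      | none => Affine.Point.zero
      | some p => .some p.1.1 p.1.2 (hns p)) ⟨?_, ?_⟩
    · rintro (_ | ⟨⟨x, y⟩, h⟩) (_ | ⟨⟨x', y'⟩, h'⟩) hh
      · rfl
      · simp at hh
      · simp at hh
      · simp only [Affine.Point.some.injEq] at hh
        obtain ⟨rfl, rfl⟩ := hh
        rfl
    · rintro (_ | ⟨x, y, h⟩)
      · exact ⟨none, rfl⟩
      · refine ⟨some ⟨(x, y), ?_⟩, rfl⟩
        have := (eqnF_iff x y).mp h.1
        simp only
        rw [this]; ring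
  rw [← Nat.card_congr e, Nat.card_eq_fintype_card, Fintype.card_option]
  congr 1
  -- for each `y` there is exactly one `x`
  have e2 : S ≃ ZMod r := by
    refine Equiv.ofBijective (fun p => p.1.2) ⟨?_, ?_⟩
    · rintro ⟨⟨x, y⟩, h⟩ ⟨⟨x', y'⟩, h'⟩ hh
      simp only at hh h h'
      subst hh
      have : x ^ 3 = x' ^ 3 := by linear_combination h' - h
      have := hinj this
      subst this
      rfl
    · intro y
      obtain ⟨x, hx⟩ := hbij.2 (y ^ 2 - b)
      simp only at hx
      exact ⟨⟨(x, y), by simp only; rw [hx]; ring⟩, rfl⟩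
  rw [Fintype.card_congr e2, ZMod.card]

end count

/-- **Supersingular reduction** for `y² = x³ + b`. -/
theorem kill_b (b : ℤ) (r : ℕ) [Fact r.Prime] (h3 : r % 3 = 2) (h2 : r ≠ 2)
    (hrb : ¬ (r : ℤ) ∣ b) (P : (E 0 b).Point) : InH r ((r + 1) • P) := by
  have hp : Prime (r : ℤ) := Nat.prime_iff_prime_int.mp (Fact.out : r.Prime)
  have hg : GoodAt 0 b r := by
    refine ⟨h2, ?_⟩
    intro h
    have h1 : (r : ℤ) ∣ 27 * b ^ 2 := by simpa using h
    rcases hp.dvd_mul.mp h1 with h4 | h4
    · have h5 : (r : ℤ) ∣ 3 ^ 3 := by norm_num; exact h4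
      have h6 := hp.dvd_of_dvd_pow h5
      have h7 : r ∣ 3 := by exact_mod_cast h6
      have h8 := (Nat.prime_dvd_prime_iff_eq Fact.out Nat.prime_three).mp h7
      omega
    · exact hrb (hp.dvd_of_dvd_pow h4)
  apply kill_of_card hg
  have hb : (b : ZMod r) ≠ 0 := by
    rwa [Ne, ZMod.intCast_zmod_eq_zero_iff_dvd]
  have h := card_point_b (b : ZMod r) hb h3 h2
  have e : Er 0 b r = EF 0 (b : ZMod r) := by
    simp [Er]
  rw [e]
  exact h

end Pool.Agent.Helper10.SS
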